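import Pool.Agent.W2helper20.KS.Defect

/-!
# Stability for balanced almost Hermitian metrics

The proofs are those for almost Kähler metrics; closedness of the fundamental form of `g` was used only for the
divergence of the bivector field `Pf`.
-/

set_option autoImplicit false

namespace Pool.Agent.W2helper20.KS

open Set Metric MeasureTheory Filter Topology
open scoped ContDiff InnerProductSpace ENNReal
open Pool.Agent.Q176.BR Pool.Agent.W2helper20.BC Pool.Agent.W2helper25.KB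

variable {n : ℕ} {g h g' : Fld n} {J : E n → E n →L[ℝ] E n}

theorem DD_nonneg (B : Fin n → Fin n → E n → ℝ) (x : E n) : 0 ≤ DD B x :=
  Finset.sum_nonneg fun _ _ => Finset.sum_nonneg fun _ _ => Finset.sum_nonneg fun _ _ => abs_nonneg _

/-- `(g, J)` is almost Hermitian on `M`. -/
structure AH (g : Fld n) (J : E n → E n →L[ℝ] E n) : Prop where
  sq : ∀ x ∈ M n, ∀ v, J x (J x v) = -v
  herm : ∀ x ∈ M n, ∀ v w, g x (J x v) (J x w) = g x v w

theorem Jm_sqB {x : E n} (hk : AH g J) (hx : x ∈ M n) : Jm J x * Jm J x = -1 := by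
  ext i k
  have h1 : (Jm J x * Jm J x) i k = (J x (J x (bs k))) i := by
    conv_rhs => rw [← sum_bs (J x (bs k))]
    simp only [map_sum, map_smul, Jm, Matrix.mul_apply, Matrix.of_apply, WithLp.ofLp_sum,
      Finset.sum_apply, WithLp.ofLp_smul, Pi.smul_apply, smul_eq_mul]
    exact Finset.sum_congr rfl fun l _ => by ring
  rw [h1, hk.sq x hx]
  simp only [WithLp.ofLp_neg, Pi.neg_apply, bs_apply, Matrix.neg_apply, Matrix.one_apply]

theorem WVB (hg : IsMetric g) (hk : AH g J) {x : E n} (hx : x ∈ M n) : Wm g J x * Vm g J x = 1 := by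
  unfold Wm Vm
  rw [Matrix.mul_neg, Matrix.mul_assoc, ← Matrix.mul_assoc (gram (g x)),
    Matrix.mul_nonsing_inv _ (isUnit_gram hg x), Matrix.one_mul, ← Matrix.transpose_mul,
    Jm_sqB hk hx]
  simp

theorem VWB (hg : IsMetric g) (hk : AH g J) {x : E n} (hx : x ∈ M n) : Vm g J x * Wm g J x = 1 :=
  mul_eq_one_comm.1 (WVB hg hk hx)

theorem Wm_antiB (hg : IsMetric g) (hk : AH g J) {x : E n} (hx : x ∈ M n) (i j : Fin n) :
    Wm g J x i j = -Wm g J x j i := by
  rw [Wm_apply, Wm_apply, ← hk.herm x hx, hk.sq x hx, hg.symm x (J x (bs j))]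
  simp

theorem Vm_antiB (hg : IsMetric g) (hk : AH g J) {x : E n} (hx : x ∈ M n) (i j : Fin n) :
    Vm g J x i j = -Vm g J x j i := by
  have h1 : (Wm g J x).transpose = -Wm g J x := by
    ext a b
    rw [Matrix.transpose_apply, Matrix.neg_apply]
    exact Wm_antiB hg hk hx b a
  have h2 := congrArg Matrix.transpose (VWB hg hk hx)
  rw [Matrix.transpose_mul, h1, Matrix.transpose_one, Matrix.neg_mul] at h2
  have h3 : (Vm g J x).transpose = -Vm g J x := by
    have h4 := congrArg (fun A => Vm g J x * A) h2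
    simp only [Matrix.mul_neg, Matrix.mul_one] at h4
    rw [← Matrix.mul_assoc, VWB hg hk hx, Matrix.one_mul] at h4
    exact neg_eq_iff_eq_neg.1 h4
  have h5 := congrFun (congrFun h3 j) i
  rw [Matrix.transpose_apply, Matrix.neg_apply] at h5
  exact h5

theorem trace_invB (hg : IsMetric g) (hk : AH g J) {x : E n} (hx : x ∈ M n)
    (b : E n →L[ℝ] E n →L[ℝ] ℝ) :
    ((gram (g x))⁻¹ * gram (b.bilinearComp (J x) (J x))).trace = ((gram (g x))⁻¹ * gram b).trace := by
  have e1 : ∀ c : E n →L[ℝ] E n →L[ℝ] ℝ,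
      gram (c.bilinearComp (J x) (J x)) = (Jm J x).transpose * gram c * Jm J x := by
    intro c
    ext i j
    rw [gram_apply, ContinuousLinearMap.bilinearComp_apply]
    conv_lhs => rw [← sum_bs (J x (bs i)), ← sum_bs (J x (bs j))]
    simp only [map_sum, map_smul, sum_apply, smul_apply, smul_eq_mul, Matrix.mul_apply,
      Matrix.transpose_apply, Jm, Matrix.of_apply, gram_apply, Finset.sum_mul, Finset.mul_sum]
    refine Finset.sum_congr rfl fun a _ => Finset.sum_congr rfl fun b _ => ?_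
    ring
  have e2 : (Jm J x).transpose * gram (g x) * Jm J x = gram (g x) := by
    rw [← e1]
    ext i j
    rw [gram_apply, gram_apply, ContinuousLinearMap.bilinearComp_apply, hk.herm x hx]
  have e3 : gram (g x) * Jm J x = -((Jm J x).transpose * gram (g x)) := by
    conv_lhs => rw [← e2]
    rw [Matrix.mul_assoc, Jm_sqB hk hx, Matrix.mul_neg, Matrix.mul_one]
  have hu := isUnit_gram hg x
  have e4 : Jm J x * (gram (g x))⁻¹ = -((gram (g x))⁻¹ * (Jm J x).transpose) := by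
    have h1 := congrArg (fun A => (gram (g x))⁻¹ * A * (gram (g x))⁻¹) e3
    rw [← Matrix.mul_assoc, Matrix.nonsing_inv_mul _ hu, Matrix.one_mul, Matrix.mul_neg,
      Matrix.neg_mul, ← Matrix.mul_assoc, Matrix.mul_assoc _ (gram (g x)),
      Matrix.mul_nonsing_inv _ hu, Matrix.mul_one] at h1
    exact h1
  have e5 : (Jm J x).transpose * (Jm J x).transpose = -1 := by
    rw [← Matrix.transpose_mul, Jm_sqB hk hx]
    simp
  rw [e1]
  calc ((gram (g x))⁻¹ * ((Jm J x).transpose * gram b * Jm J x)).trace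
      = (((gram (g x))⁻¹ * (Jm J x).transpose * gram b) * Jm J x).trace := by
        rw [← Matrix.mul_assoc, ← Matrix.mul_assoc]
    _ = (Jm J x * ((gram (g x))⁻¹ * (Jm J x).transpose * gram b)).trace := Matrix.trace_mul_comm _ _
    _ = ((Jm J x * (gram (g x))⁻¹) * (Jm J x).transpose * gram b).trace := by
        rw [← Matrix.mul_assoc, ← Matrix.mul_assoc]
    _ = ((gram (g x))⁻¹ * gram b).trace := by
        rw [e4, Matrix.neg_mul, Matrix.mul_assoc _ _ (Jm J x).transpose, e5]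
        simp

theorem TT_invB (hg : IsMetric g) (hk : AH g J) (h : Fld n) : TT g (invF h J) = TT g h := by
  unfold TT
  refine setIntegral_congr_fun measurableSet_ball fun x hx => ?_
  have hxM : x ∈ M n := ball_subset_closedBall hx
  have e1 : gram (invF h J x) = (1 / 2 : ℝ) • (gram (h x) + gram ((h x).bilinearComp (J x) (J x))) := by
    ext i j
    simp only [gram_apply, invF, Matrix.smul_apply, Matrix.add_apply, smul_apply, add_apply]
  have e2 : ((gram (g x))⁻¹ * gram (invF h J x)).trace = ((gram (g x))⁻¹ * gram (h x)).trace := by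
    rw [e1, Matrix.mul_smul, Matrix.mul_add, Matrix.trace_smul, Matrix.trace_add,
      trace_invB hg hk hxM, smul_eq_mul]
    ring
  simp only [e2]

theorem AH_hk0B (hg : IsMetric g) (hk : AH g J) : HK0 g J :=
  ⟨hg.smooth, hg.symm, hk.sq, hk.herm⟩

theorem invF_hk0B (hJ : ContDiff ℝ ∞ J) (hk : AH g J) (hs : IsSemi h) : HK0 (invF h J) J := by
  refine ⟨?_, ?_, hk.sq, ?_⟩
  · rw [contDiff_clm_apply_iff]
    intro v
    rw [contDiff_clm_apply_iff]
    intro w
    simp only [invF_apply]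
    have h1 : ContDiff ℝ ∞ (fun x => h x v w) :=
      (hs.smooth.clm_apply contDiff_const).clm_apply contDiff_const
    have h2 : ContDiff ℝ ∞ (fun x => h x (J x v) (J x w)) :=
      (hs.smooth.clm_apply (hJ.clm_apply contDiff_const)).clm_apply (hJ.clm_apply contDiff_const)
    exact (h1.add h2).div_const 2
  · intro x v w
    rw [invF_apply, invF_apply, hs.symm x v w, hs.symm x (J x v)]
  · intro x hx v w
    rw [invF_apply, invF_apply, hk.sq x hx, hk.sq x hx]
    simp only [map_neg, neg_apply, neg_neg]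
    ring

theorem TT_eq0B (hg : IsMetric g) (hk : AH g J) (hk' : HK0 h J) :
    TT g h = -∫ x in ball (0 : E n) 1, ∑ i, ∑ j, Pf g J i j x * Bf g h J i j x := by
  rw [← integral_neg, TT]
  refine setIntegral_congr_fun measurableSet_ball fun x hx => ?_
  have hxM : x ∈ M n := ball_subset_closedBall hx
  have e1 : Vm g J x * (Wm h J x - Wm g J x) = (gram (g x))⁻¹ * gram (h x) - 1 := by
    rw [Matrix.mul_sub, VWB hg hk hxM]
    congr 1
    unfold Vm Wm
    rw [Matrix.neg_mul, Matrix.mul_assoc, ← Matrix.mul_assoc (Jm J x).transpose,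
      ← Matrix.transpose_mul, Jm_sqB hk hxM]
    simp
  have e2 := congrArg Matrix.trace e1
  rw [Matrix.trace_sub, Matrix.trace_one, Fintype.card_fin] at e2
  have e3 : ∑ i, ∑ j, Pf g J i j x * Bf g h J i j x =
      -(√(gram (g x)).det * (Vm g J x * (Wm h J x - Wm g J x)).trace) := by
    simp only [Matrix.trace, Matrix.diag_apply, Matrix.mul_apply, Finset.mul_sum]
    rw [← Finset.sum_neg_distrib]
    refine Finset.sum_congr rfl fun i _ => ?_
    rw [← Finset.sum_neg_distrib]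
    refine Finset.sum_congr rfl fun j _ => ?_
    simp only [Pf, Bf, Matrix.sub_apply]
    rw [Wm_antiB hg hk hxM i j, hk'.Wm_anti hxM i j]
    ring
  show √(rho g x) * (((gram (g x))⁻¹ * gram (h x)).trace - n) =
    -∑ i, ∑ j, Pf g J i j x * Bf g h J i j x
  rw [e3, e2, neg_neg, rho]

theorem int0B (hD : P_DIV) (hA : P_ALG) (hn : 3 ≤ n) (hg : IsMetric g) (hJ : ContDiff ℝ ∞ J)
    (hk : AH g J) (hbal : ∀ x ∈ ball (0 : E n) 1, ∀ j, ∑ i, fderiv ℝ (Pf g J i j) x (bs i) = 0) :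
    ∃ C₁ : ℝ, 0 ≤ C₁ ∧ ∀ (h : Fld n) (δ Δ : ℝ), HK0 h J → 0 ≤ δ →
      (∀ x ∈ bdM n, ∀ v, ⟪x, v⟫_ℝ = 0 → |h x v v - g x v v| ≤ δ * g x v v) →
      (∫ x in ball (0 : E n) 1, DD (Bf g h J) x ≤ Δ) → |TT g h| ≤ C₁ * (δ + Δ) := by
  obtain ⟨c, hc, hcP⟩ := dpair hD hA n hn
  have hcM : IsCompact (M n) := isCompact_closedBall 0 1
  have h0M : (0 : E n) ∈ M n := mem_closedBall_self zero_le_one
  have hPc : Continuous fun x => ∑ i, ∑ j, |Pf g J i j x| :=
    continuous_finsetSum _ fun i _ => continuous_finsetSum _ fun j _ =>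
      (contDiff_Pf hg hJ i j).continuous.abs
  obtain ⟨p, hp⟩ := hcM.exists_bound_of_continuousOn hPc.continuousOn
  have hgc : Continuous g := hg.smooth.continuous
  have hgn : Continuous fun x => ‖g x‖ := (continuous_norm (E := E n →L[ℝ] E n →L[ℝ] ℝ)).comp hgc
  obtain ⟨G, hG'⟩ := hcM.exists_bound_of_continuousOn (f := fun x => ‖g x‖) hgn.continuousOn
  obtain ⟨N, hN'⟩ := hcM.exists_bound_of_continuousOn (f := fun x => ‖J x‖)
    hJ.continuous.norm.continuousOn
  have hG : ∀ x ∈ M n, ‖g x‖ ≤ G := fun x hx => (le_abs_self _).trans (hG' x hx)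
  have hN : ∀ x ∈ M n, ‖J x‖ ≤ N := fun x hx => (le_abs_self _).trans (hN' x hx)
  have hp0 : 0 ≤ p := (norm_nonneg _).trans (hp 0 h0M)
  have hG0 : 0 ≤ G := (abs_nonneg _).trans (hG' 0 h0M)
  have hN0 : 0 ≤ N := (abs_nonneg _).trans (hN' 0 h0M)
  refine ⟨c * p * (G * (2 * N ^ 2 + 1)) + p, by positivity, fun h δ Δ hk' hδ hb hΔ => ?_⟩
  have hΔ0 : 0 ≤ Δ := (integral_nonneg fun x => DD_nonneg _ x).trans hΔ
  have h1 := hcP (Pf g J) (Bf g h J) p (δ * G * (2 * N ^ 2 + 1)) Δ
    (fun i j => (contDiff_Pf hg hJ i j).of_le (by simp))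
    (fun i j => ((hk'.smM hJ i j).sub (smM_Wm hg hJ i j)).of_le (by simp))
    (fun x hx i j => by
      simp only [Pf]
      rw [Vm_antiB hg hk hx i j]; ring)
    (fun x hx i j => by
      simp only [Bf]
      rw [Wm_antiB hg hk hx i j, hk'.Wm_anti hx i j]; ring)
    hbal
    hΔ
    (fun x hx i j => by
      have h2 := hp x hx
      rw [Real.norm_of_nonneg (Finset.sum_nonneg fun i _ => Finset.sum_nonneg fun j _ =>
        abs_nonneg _)] at h2
      refine le_trans ?_ h2
      refine le_trans ?_ (Finset.single_le_sum (f := fun i => ∑ j, |Pf g J i j x|)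
        (fun i _ => Finset.sum_nonneg fun j _ => abs_nonneg _) (Finset.mem_univ i))
      exact Finset.single_le_sum (f := fun j => |Pf g J i j x|)
        (fun j _ => abs_nonneg _) (Finset.mem_univ j))
    (fun x hx i j => by
      have hxb : x ∈ bdM n := by rwa [mem_sphere_zero_iff_norm]
      have hxM : x ∈ M n := sphere_subset_closedBall hxb
      refine tan0 (AH_hk0B hg hk) hk' hx hG0 hN0 hδ (fun v => ?_) (fun v => ?_)
        (fun v hv => hb x hxb v hv) i j
      · calc g x v v ≤ ‖g x v v‖ := le_abs_self _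
          _ ≤ ‖g x‖ * ‖v‖ * ‖v‖ := (g x).le_opNorm₂ v v
          _ ≤ G * ‖v‖ * ‖v‖ := by gcongr; exact hG x hxM
          _ = G * ‖v‖ ^ 2 := by ring
      · exact ((J x).le_opNorm v).trans (mul_le_mul_of_nonneg_right (hN x hxM) (norm_nonneg v)))
  rw [TT_eq0B hg hk hk', abs_neg]
  refine h1.trans ?_
  have e1 : 0 ≤ c * p * (G * (2 * N ^ 2 + 1)) * Δ := by positivity
  have e2 : 0 ≤ p * δ := by positivity
  nlinarith

/-- **Stability for all metrics, with the Kähler defect as an error term.** -/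
theorem defect_stabB (hS : P_SCALE) (hA : P_ABS) (hN : P_NORM) (hD : P_DIV) (hG : P_ALG)
    (hB : P_BDK) (hn : 3 ≤ n) (hg : IsSimple g)
    {J : E n → E n →L[ℝ] E n} (hJ : ContDiff ℝ ∞ J) (hk : AH g J)
    (hbal : ∀ x ∈ ball (0 : E n) 1, ∀ j, ∑ i, fderiv ℝ (Pf g J i j) x (bs i) = 0) :
    ∃ K : ℝ, 0 ≤ K ∧ ∀ (g' : Fld n) (ψ : E n → E n) (η κ Δ : ℝ),
      IsMetric g' → IsFix ψ → 0 ≤ η → η ≤ 1 →
      (∀ p ∈ bdM n, ∀ q ∈ bdM n, (1 - η) * rdist g p q ≤ rdist g' p q) →
      (∀ x ∈ bdM n, ∀ v, ⟪x, v⟫_ℝ = 0 → g' x v v ≤ (1 + η) ^ 2 * g x v v) → 0 ≤ κ →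
      (∀ x ∈ bdM n, ∀ v, ⟪x, v⟫_ℝ = 0 →
        |pull g' ψ x (J x v) (J x v) - pull g' ψ x v v| ≤ κ * g x v v) →
      (∫ x in ball (0 : E n) 1, DD (Bf g (invF (pull g' ψ) J) J) x ≤ Δ) →
      ∫ x in ball (0 : E n) 1, dev g (pull g' ψ) x ≤ K * √((η + κ + Δ) * (1 + (η + κ + Δ))) := by
  obtain ⟨C₁, hC1, H1⟩ := int0B hD hG hn hg.toIsMetric hJ hk hbal
  obtain ⟨K, hK, H⟩ := gen_stab hS hA hN (by omega) hg (T := 3 * C₁) (by positivity)
  refine ⟨K, hK, fun g' ψ η κ Δ hg' hψ h0 h1 hd1 hd2 k0 hh hΔ => ?_⟩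
  have hΔ0 : 0 ≤ Δ := (integral_nonneg fun x => DD_nonneg _ x).trans hΔ
  have hs := Pool.Agent.W4helper65.EN.semi_pull hg' hψ
  have hHK := invF_hk0B hJ hk hs
  have hlen : LenGeK (1 - η) g (pull g' ψ) := by
    intro γ c1 c2 c3 c4
    have e1 := Pool.Agent.W4helper65.EN.lenGe_pull hg' hψ (fun p _ q _ => le_refl (rdist g' p q))
      γ c1 c2 c3 c4
    exact (hd1 _ c3 _ c4).trans e1
  have hbd : ∀ x ∈ bdM n, ∀ v, ⟪x, v⟫_ℝ = 0 →
      |invF (pull g' ψ) J x v v - g x v v| ≤ 3 * (η + κ) * g x v v := by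
    intro x hx v hv
    have hh1 := hh x hx v hv
    have e0 : pull g' ψ x v v = g' x v v := by
      rw [Pool.Agent.W4helper65.EN.pull_apply, fix_tangent hψ hx hv, hψ.fix x hx]
    rw [e0] at hh1
    rw [invF_apply, e0]
    have hgv : 0 ≤ g x v v := hg.toIsMetric.nonneg x v
    have hgv' : 0 ≤ g' x v v := hg'.nonneg x v
    have up : g' x v v ≤ (1 + η) ^ 2 * g x v v := hd2 x hx v hv
    have lo : (1 - η) ^ 2 * g x v v ≤ g' x v v := by
      rcases h1.eq_or_lt with rfl | h1'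
      · simpa using hgv'
      · exact hB n g g' (1 - η) hg.toIsMetric hg' (by linarith) x hx (fun q hq => hd1 x hx q hq) v hv
    have hkg : 0 ≤ κ * g x v v := mul_nonneg k0 hgv
    have hηg : 0 ≤ η * g x v v := mul_nonneg h0 hgv
    have h2g : 0 ≤ η ^ 2 * g x v v := by positivity
    have h2g' : η ^ 2 * g x v v ≤ η * g x v v := by
      refine mul_le_mul_of_nonneg_right ?_ hgv
      nlinarith
    obtain ⟨q1, q2⟩ := abs_le.1 hh1
    rw [abs_le]
    constructor
    · nlinarith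
    · nlinarith
  have hT := (abs_le.1 (H1 _ (3 * (η + κ)) Δ hHK (by positivity) hbd hΔ)).2
  rw [TT_invB hg.toIsMetric hk] at hT
  refine H (pull g' ψ) η (η + κ + Δ) hs h0 h1 (by linarith) hlen (hT.trans ?_)
  have : 0 ≤ C₁ * Δ := by positivity
  nlinarith

end Pool.Agent.W2helper20.KS
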