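import Pool.Agent.W2helper20.KS.Stm
import Pool.Agent.W2helper25.KB.Pair

/-!
# The pairing of a divergence free bivector field with a 2-form which need not be closed

The proof is that of piece PAIR (`Pool/Agent/W2helper27/KS/PAIR.lean`), with an additional term.
-/

set_option autoImplicit false

namespace Pool.Agent.W2helper20.KS

open Set Metric MeasureTheory Filter Topology
open scoped ContDiff InnerProductSpace ENNReal
open Pool.Agent.Q176.BR Pool.Agent.W2helper25.KB

variable {n : ℕ}

theorem alg_T3 (x : Fin n → ℝ) (P : Fin n → Fin n → ℝ) (b : Fin n → Fin n → Fin n → ℝ) :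
    ∑ k, ∑ i, ∑ j, (x k * P i j + x i * P j k + x j * P k i) * b i j k =
      1 / 3 * ∑ k, ∑ i, ∑ j, (x k * P i j + x i * P j k + x j * P k i) *
        (b i j k + b j k i + b k i j) := by
  have h := alg_T x P (fun i j k => b i j k - (b i j k + b j k i + b k i j) / 3)
    (fun i j k => by ring)
  have e : ∀ k i j, (x k * P i j + x i * P j k + x j * P k i) *
      (b i j k - (b i j k + b j k i + b k i j) / 3) =
        (x k * P i j + x i * P j k + x j * P k i) * b i j k -
          1 / 3 * ((x k * P i j + x i * P j k + x j * P k i) * (b i j k + b j k i + b k i j)) := by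
    intro k i j
    ring
  simp only [e, Finset.sum_sub_distrib, ← Finset.mul_sum] at h
  linarith

theorem alg_div3 (t : ℝ) (x : Fin n → ℝ) (P B : Fin n → Fin n → ℝ)
    (p b : Fin n → Fin n → Fin n → ℝ) (hP : ∀ i j, P i j = -P j i)
    (hp : ∀ i j l, p i j l = -p j i l) (hd : ∀ j, ∑ i, p i j i = 0) :
    ∑ k, ∑ i, ∑ j, (((1 : ℝ) * P i j + x k * (t * p i j k) +
        ((if i = k then 1 else 0) * P j k + x i * (t * p j k k)) +
        ((if j = k then 1 else 0) * P k i + x j * (t * p k i k))) * B i j +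
          (x k * P i j + x i * P j k + x j * P k i) * b i j k) =
      ∑ i, ∑ j, (((n : ℝ) - 2) * P i j + t * ∑ k, x k * p i j k) * B i j +
        ∑ k, ∑ i, ∑ j, (x k * P i j + x i * P j k + x j * P k i) * b i j k := by
  have h := alg_div t x P B p (fun _ _ _ => 0) hP hp hd (fun _ _ _ => by ring)
  rw [← h, ← Finset.sum_add_distrib]
  refine Finset.sum_congr rfl fun k _ => ?_
  rw [← Finset.sum_add_distrib]
  refine Finset.sum_congr rfl fun i _ => ?_
  rw [← Finset.sum_add_distrib]
  refine Finset.sum_congr rfl fun j _ => ?_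
  ring

/-- The additional term. -/
noncomputable def RT (P B : Fin n → Fin n → E n → ℝ) (t : ℝ) (x : E n) : ℝ :=
  t ^ (n - 3) * ∑ k, ∑ i, ∑ j, (x k * P i j (t • x) + x i * P j k (t • x) + x j * P k i (t • x)) *
    fderiv ℝ (B i j) x (bs k)

/-- The size of the exterior derivative of `B`. -/
noncomputable def DD (B : Fin n → Fin n → E n → ℝ) (x : E n) : ℝ :=
  ∑ k, ∑ i, ∑ j, |fderiv ℝ (B i j) x (bs k) + fderiv ℝ (B j k) x (bs i) + fderiv ℝ (B k i) x (bs j)|

theorem continuous_RT {P B : Fin n → Fin n → E n → ℝ} (hP : ∀ i j, ContDiff ℝ 1 (P i j))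
    (hB : ∀ i j, ContDiff ℝ 1 (B i j)) (t : ℝ) : Continuous (RT P B t) := by
  unfold RT
  have h1 : ∀ i j, Continuous (fun x : E n => P i j (t • x)) := fun i j =>
    (hP i j).continuous.comp (continuous_const_smul t)
  have h2 : ∀ i j k, Continuous (fun x : E n => fderiv ℝ (B i j) x (bs k)) :=
    fun i j k => ((hB i j).continuous_fderiv (by norm_num)).clm_apply continuous_const
  have h4 : ∀ k : Fin n, Continuous (fun x : E n => x k) := fun k => by fun_prop
  exact continuous_const.mul (continuous_finsetSum _ fun k _ => continuous_finsetSum _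
    fun i _ => continuous_finsetSum _ fun j _ => ((((h4 k).mul (h1 i j)).add
      ((h4 i).mul (h1 j k))).add ((h4 j).mul (h1 k i))).mul (h2 i j k))

theorem continuous_DD {B : Fin n → Fin n → E n → ℝ}
    (hB : ∀ i j, ContDiff ℝ 1 (B i j)) : Continuous (DD B) := by
  unfold DD
  have h2 : ∀ i j k, Continuous (fun x : E n => fderiv ℝ (B i j) x (bs k)) :=
    fun i j k => ((hB i j).continuous_fderiv (by norm_num)).clm_apply continuous_const
  exact continuous_finsetSum _ fun k _ => continuous_finsetSum _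
    fun i _ => continuous_finsetSum _ fun j _ => (((h2 i j k).add (h2 j k i)).add (h2 k i j)).abs

theorem RT_le {P B : Fin n → Fin n → E n → ℝ} {p t : ℝ} {x : E n} (ht : t ∈ Icc (0 : ℝ) 1)
    (hx : x ∈ closedBall (0 : E n) 1) (hp : ∀ i j, |P i j (t • x)| ≤ p) :
    |RT P B t x| ≤ p * DD B x := by
  have hx1 : ∀ k, |x k| ≤ 1 := by
    intro k
    have h1 := PiLp.norm_apply_le x k
    rw [Real.norm_eq_abs] at h1
    exact h1.trans (mem_closedBall_zero_iff.1 hx)
  have hT : ∀ k i j, |x k * P i j (t • x)| ≤ p := by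
    intro k i j
    rw [abs_mul]
    exact (mul_le_mul (hx1 k) (hp i j) (abs_nonneg _) zero_le_one).trans (le_of_eq (one_mul p))
  unfold RT
  rw [alg_T3 (fun i => x i) (fun i j => P i j (t • x)) (fun i j k => fderiv ℝ (B i j) x (bs k)),
    abs_mul, abs_of_nonneg (pow_nonneg ht.1 _), abs_mul,
    abs_of_nonneg (show (0 : ℝ) ≤ 1 / 3 by norm_num)]
  have h1 : |∑ k, ∑ i, ∑ j, (x k * P i j (t • x) + x i * P j k (t • x) + x j * P k i (t • x)) *
      (fderiv ℝ (B i j) x (bs k) + fderiv ℝ (B j k) x (bs i) + fderiv ℝ (B k i) x (bs j))| ≤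
        3 * p * DD B x := by
    unfold DD
    simp only [Finset.mul_sum]
    refine (Finset.abs_sum_le_sum_abs _ _).trans (Finset.sum_le_sum fun k _ => ?_)
    refine (Finset.abs_sum_le_sum_abs _ _).trans (Finset.sum_le_sum fun i _ => ?_)
    refine (Finset.abs_sum_le_sum_abs _ _).trans (Finset.sum_le_sum fun j _ => ?_)
    rw [abs_mul]
    refine mul_le_mul_of_nonneg_right ?_ (abs_nonneg _)
    have e1 := abs_add_le (x k * P i j (t • x) + x i * P j k (t • x)) (x j * P k i (t • x))
    have e2 := abs_add_le (x k * P i j (t • x)) (x i * P j k (t • x))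
    have e3 := hT k i j
    have e4 := hT i j k
    have e5 := hT j k i
    linarith
  have h2 : 0 ≤ |∑ k, ∑ i, ∑ j, (x k * P i j (t • x) + x i * P j k (t • x) + x j * P k i (t • x)) *
      (fderiv ℝ (B i j) x (bs k) + fderiv ℝ (B j k) x (bs i) + fderiv ℝ (B k i) x (bs j))| :=
    abs_nonneg _
  have h3 : t ^ (n - 3) ≤ 1 := pow_le_one₀ ht.1 ht.2
  calc _ ≤ 1 * (1 / 3 * |∑ k, ∑ i, ∑ j, (x k * P i j (t • x) + x i * P j k (t • x) +
      x j * P k i (t • x)) * (fderiv ℝ (B i j) x (bs k) + fderiv ℝ (B j k) x (bs i) +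
        fderiv ℝ (B k i) x (bs j))|) := mul_le_mul_of_nonneg_right h3 (by positivity)
    _ ≤ p * DD B x := by linarith

/-- PAIR with a defect. -/
theorem dpair (hDIV : P_DIV) (hALG : P_ALG) (n : ℕ) (hn : 3 ≤ n) : ∃ c : ℝ, 0 ≤ c ∧
    ∀ (P B : Fin n → Fin n → E n → ℝ) (p δ Δ : ℝ), (∀ i j, ContDiff ℝ 1 (P i j)) →
    (∀ i j, ContDiff ℝ 1 (B i j)) →
    (∀ x ∈ closedBall (0 : E n) 1, ∀ i j, P i j x = -P j i x) →
    (∀ x ∈ closedBall (0 : E n) 1, ∀ i j, B i j x = -B j i x) →
    (∀ x ∈ ball (0 : E n) 1, ∀ j, ∑ i, fderiv ℝ (P i j) x (bs i) = 0) →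
    (∫ x in ball (0 : E n) 1, DD B x ≤ Δ) →
    (∀ x ∈ closedBall (0 : E n) 1, ∀ i j, |P i j x| ≤ p) →
    (∀ x : E n, ‖x‖ = 1 → ∀ i j, |B i j x -
      (x i * (∑ a, x a * B a j x) - x j * (∑ a, x a * B a i x))| ≤ δ) →
    |∫ x in ball (0 : E n) 1, ∑ i, ∑ j, P i j x * B i j x| ≤ c * p * δ + p * Δ := by
  obtain ⟨c, hc0, hc⟩ := hDIV n (by omega)
  refine ⟨c * (n : ℝ) ^ 2, by positivity, ?_⟩
  intro P B p δ Δ hP hB hPa hBa hPd hBc hPp hBδ
  have hp0 : 0 ≤ p := by
    have h0 := hPp 0 (by simp) ⟨0, by omega⟩ ⟨0, by omega⟩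
    exact (abs_nonneg _).trans h0
  -- the bound for the boundary term
  have h1 : ∀ t ∈ Icc (0 : ℝ) 1, |∫ x in ball (0 : E n) 1, HT P B t x| ≤
      c * ((n : ℝ) ^ 2 * p * δ) + p * Δ := by
    intro t ht
    have hmemc : ∀ x ∈ closedBall (0 : E n) 1, t • x ∈ closedBall (0 : E n) 1 := by
      intro x hx
      rw [mem_closedBall_zero_iff] at hx ⊢
      rw [norm_smul, Real.norm_eq_abs, abs_of_nonneg ht.1]
      exact mul_le_one₀ ht.2 (norm_nonneg _) hx
    have hmem : ∀ x ∈ ball (0 : E n) 1, t • x ∈ ball (0 : E n) 1 := by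
      intro x hx
      rw [mem_ball_zero_iff] at hx ⊢
      rw [norm_smul, Real.norm_eq_abs, abs_of_nonneg ht.1]
      exact (mul_le_of_le_one_left (norm_nonneg _) ht.2).trans_lt hx
    have h2 := hc (ZT P B t) ((n : ℝ) ^ 2 * p * δ) (contDiff_ZT hP hB t) (by
      intro x hx
      have hxM : x ∈ closedBall (0 : E n) 1 := by rw [mem_closedBall_zero_iff, hx]
      have h3 := hALG n (fun i => x i) (fun i j => P i j (t • x)) (fun i j => B i j x)
        (fun i j => hPa _ (hmemc x hxM) i j) (fun i j => hBa _ hxM i j)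
        (by
          have h4 := EuclideanSpace.real_norm_sq_eq x
          rw [hx] at h4
          simp only [← pow_two]
          rw [← h4]; norm_num)
      unfold ZT
      have h4 : ∀ k, x k * (t ^ (n - 3) * ∑ i, ∑ j, (x k * P i j (t • x) + x i * P j k (t • x) +
          x j * P k i (t • x)) * B i j x) = t ^ (n - 3) * (x k * ∑ i, ∑ j, (x k * P i j (t • x) +
            x i * P j k (t • x) + x j * P k i (t • x)) * B i j x) := fun k => by ring
      simp only [h4, ← Finset.mul_sum]
      rw [h3, abs_mul, abs_of_nonneg (pow_nonneg ht.1 _)]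
      have h5 : |∑ i, ∑ j, P i j (t • x) * (B i j x -
          (x i * (∑ a, x a * B a j x) - x j * (∑ a, x a * B a i x)))| ≤ ∑ _i : Fin n, ∑ _j : Fin n, p * δ := by
        refine (Finset.abs_sum_le_sum_abs _ _).trans (Finset.sum_le_sum fun i _ => ?_)
        refine (Finset.abs_sum_le_sum_abs _ _).trans (Finset.sum_le_sum fun j _ => ?_)
        rw [abs_mul]
        exact mul_le_mul (hPp _ (hmemc x hxM) i j) (hBδ x hx i j) (abs_nonneg _) hp0
      have h6 : (∑ _i : Fin n, ∑ _j : Fin n, p * δ) = (n : ℝ) ^ 2 * p * δ := by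
        simp only [Finset.sum_const, Finset.card_univ, Fintype.card_fin, nsmul_eq_mul]
        ring
      rw [h6] at h5
      exact (mul_le_of_le_one_left (abs_nonneg _) (pow_le_one₀ ht.1 ht.2)).trans h5)
    have hHc : Continuous fun x => HT P B t x :=
      (continuous_HT hP hB).comp (continuous_id.prodMk continuous_const)
    have hRc := continuous_RT hP hB t
    have hib : ∀ f : E n → ℝ, Continuous f → IntegrableOn f (ball (0 : E n) 1) := fun f hf =>
      (hf.continuousOn.integrableOn_compact (isCompact_closedBall (0 : E n) 1)).mono_set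
        ball_subset_closedBall
    have h7 : (∫ x in ball (0 : E n) 1, HT P B t x) + ∫ x in ball (0 : E n) 1, RT P B t x =
        ∫ x in ball (0 : E n) 1, ∑ k, fderiv ℝ (ZT P B t k) x (bs k) := by
      rw [← integral_add (hib _ hHc) (hib _ hRc)]
      refine setIntegral_congr_fun measurableSet_ball fun x hx => ?_
      simp only [fderiv_ZT hP hB]
      rw [← Finset.mul_sum]
      have hpa : ∀ i j l, fderiv ℝ (P i j) (t • x) (bs l) = -fderiv ℝ (P j i) (t • x) (bs l) := by
        intro i j l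
        have h3 : P i j =ᶠ[𝓝 (t • x)] fun y => -P j i y := by
          filter_upwards [isOpen_ball.mem_nhds (hmem x hx)] with y hy
          exact hPa y (ball_subset_closedBall hy) i j
        rw [h3.fderiv_eq, fderiv_fun_neg]
        rfl
      have h3 := alg_div3 t (fun i => x i) (fun i j => P i j (t • x)) (fun i j => B i j x)
        (fun i j l => fderiv ℝ (P i j) (t • x) (bs l)) (fun i j l => fderiv ℝ (B i j) x (bs l))
        (fun i j => hPa _ (ball_subset_closedBall (hmem x hx)) i j) hpa (hPd _ (hmem x hx))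
      unfold HT RT
      rw [← mul_add, ← h3]
    have h8 : |∫ x in ball (0 : E n) 1, RT P B t x| ≤ p * Δ := by
      calc |∫ x in ball (0 : E n) 1, RT P B t x| ≤ ∫ x in ball (0 : E n) 1, |RT P B t x| :=
            abs_integral_le_integral_abs
        _ ≤ ∫ x in ball (0 : E n) 1, p * DD B x := by
            refine setIntegral_mono_on (hib _ hRc.abs)
              (hib _ (continuous_const.mul (continuous_DD hB))) measurableSet_ball fun x hx => ?_
            exact RT_le ht (ball_subset_closedBall hx)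
              (fun i j => hPp _ (hmemc x (ball_subset_closedBall hx)) i j)
        _ = p * ∫ x in ball (0 : E n) 1, DD B x := by rw [integral_const_mul]
        _ ≤ p * Δ := mul_le_mul_of_nonneg_left hBc hp0
    rw [← h7] at h2
    have h9 := abs_sub ((∫ x in ball (0 : E n) 1, HT P B t x) + ∫ x in ball (0 : E n) 1, RT P B t x)
      (∫ x in ball (0 : E n) 1, RT P B t x)
    rw [add_sub_cancel_right] at h9
    linarith
  have hI : Integrable (Function.uncurry fun (x : E n) (t : ℝ) => HT P B t x)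
      ((volume.restrict (ball (0 : E n) 1)).prod (volume.restrict (Ioc (0 : ℝ) 1))) := by
    rw [Measure.prod_restrict]
    have h3 : IntegrableOn (Function.uncurry fun (x : E n) (t : ℝ) => HT P B t x)
        (closedBall (0 : E n) 1 ×ˢ Icc (0 : ℝ) 1) (volume.prod volume) :=
      (continuous_HT hP hB).continuousOn.integrableOn_compact
        ((isCompact_closedBall _ _).prod isCompact_Icc)
    exact h3.mono_set (prod_mono ball_subset_closedBall Ioc_subset_Icc_self)
  have h4 : ∫ x in ball (0 : E n) 1, ∫ t in Ioc (0 : ℝ) 1, HT P B t x =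
      ∫ t in Ioc (0 : ℝ) 1, ∫ x in ball (0 : E n) 1, HT P B t x := integral_integral_swap hI
  have h5 : ∫ x in ball (0 : E n) 1, ∑ i, ∑ j, P i j x * B i j x =
      ∫ x in ball (0 : E n) 1, ∫ t in Ioc (0 : ℝ) 1, HT P B t x := by
    refine setIntegral_congr_fun measurableSet_ball fun x _ => ?_
    rw [← int_HT hn hP hB x, intervalIntegral.integral_of_le zero_le_one]
  rw [h5, h4]
  have h8 : ‖∫ t in Ioc (0 : ℝ) 1, ∫ x in ball (0 : E n) 1, HT P B t x‖ ≤
      (c * ((n : ℝ) ^ 2 * p * δ) + p * Δ) * (volume.real (Ioc (0 : ℝ) 1)) := by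
    refine norm_setIntegral_le_of_norm_le_const (by simp) fun t ht => ?_
    rw [Real.norm_eq_abs]
    exact h1 t (Ioc_subset_Icc_self ht)
  rw [Real.norm_eq_abs] at h8
  refine h8.trans (le_of_eq ?_)
  simp
  ring

end Pool.Agent.W2helper20.KS
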