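import Pool.Agent.W2helper20.KS.Tan0
import Pool.Agent.W2helper20.KS.DPair

/-!
# Stability for all metrics, with the defect of being Kähler as an error term
-/

set_option autoImplicit false

namespace Pool.Agent.W2helper20.KS

open Set Metric MeasureTheory Filter Topology
open scoped ContDiff InnerProductSpace ENNReal
open Pool.Agent.Q176.BR Pool.Agent.W2helper20.BC Pool.Agent.W2helper25.KB

variable {n : ℕ} {g h g' : Fld n} {J : E n → E n →L[ℝ] E n}

/-- The size of the exterior derivative of the form `h(J·, ·)`. -/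
noncomputable def KD (h : Fld n) (J : E n → E n →L[ℝ] E n) (x : E n) : ℝ :=
  ∑ k, ∑ i, ∑ j, |fderiv ℝ (fun y => h y (J y (bs i)) (bs j)) x (bs k) +
    fderiv ℝ (fun y => h y (J y (bs j)) (bs k)) x (bs i) +
      fderiv ℝ (fun y => h y (J y (bs k)) (bs i)) x (bs j)|

theorem KD_nonneg (h : Fld n) (J : E n → E n →L[ℝ] E n) (x : E n) : 0 ≤ KD h J x :=
  Finset.sum_nonneg fun _ _ => Finset.sum_nonneg fun _ _ => Finset.sum_nonneg fun _ _ => abs_nonneg _

theorem DD_Bf (hg : IsMetric g) (hJ : ContDiff ℝ ∞ J) (hk : AK g J) (hk' : HK0 h J) {x : E n}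
    (hx : x ∈ M n) : DD (Bf g h J) x = KD h J x := by
  unfold DD KD
  refine Finset.sum_congr rfl fun k _ => Finset.sum_congr rfl fun i _ =>
    Finset.sum_congr rfl fun j _ => ?_
  have e1 : ∀ a b, fderiv ℝ (Bf g h J a b) x = fderiv ℝ (fun y => Wm h J y a b) x -
      fderiv ℝ (fun y => Wm g J y a b) x := by
    intro a b
    unfold Bf
    rw [fderiv_fun_sub ((hk'.smM hJ).diff a b x) ((smM_Wm hg hJ).diff a b x)]
  have e2 := closed_Wm hk hx i j k
  simp only [dM, Matrix.of_apply] at e2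
  simp only [e1, sub_apply]
  simp only [Wm_apply] at e2 ⊢
  congr 1
  linarith

theorem TT_eq0 (hg : IsMetric g) (hk : AK g J) (hk' : HK0 h J) :
    TT g h = -∫ x in ball (0 : E n) 1, ∑ i, ∑ j, Pf g J i j x * Bf g h J i j x := by
  rw [← integral_neg, TT]
  refine setIntegral_congr_fun measurableSet_ball fun x hx => ?_
  have hxM : x ∈ M n := ball_subset_closedBall hx
  have e1 : Vm g J x * (Wm h J x - Wm g J x) = (gram (g x))⁻¹ * gram (h x) - 1 := by
    rw [Matrix.mul_sub, VW hg hk hxM]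
    congr 1
    unfold Vm Wm
    rw [Matrix.neg_mul, Matrix.mul_assoc, ← Matrix.mul_assoc (Jm J x).transpose,
      ← Matrix.transpose_mul, Jm_sq hk hxM]
    simp
  have e2 := congrArg Matrix.trace e1
  rw [Matrix.trace_sub, Matrix.trace_one, Fintype.card_fin] at e2
  have e3 : ∑ i, ∑ j, Pf g J i j x * Bf g h J i j x =
      -(√(gram (g x)).det * (Vm g J x * (Wm h J x - Wm g J x)).trace) := by
    simp only [Matrix.trace, Matrix.diag_apply, Matrix.mul_apply, Finset.mul_sum]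
    rw [← Finset.sum_neg_distrib]
    refine Finset.sum_congr rfl fun i _ => ?_
    rw [← Finset.sum_neg_distrib]
    refine Finset.sum_congr rfl fun j _ => ?_
    simp only [Pf, Bf, Matrix.sub_apply]
    rw [Wm_anti hg hk hxM i j, hk'.Wm_anti hxM i j]
    ring
  show √(rho g x) * (((gram (g x))⁻¹ * gram (h x)).trace - n) =
    -∑ i, ∑ j, Pf g J i j x * Bf g h J i j x
  rw [e3, e2, neg_neg, rho]

theorem int0 (hD : P_DIV) (hA : P_ALG) (hn : 3 ≤ n) (hg : IsMetric g) (hJ : ContDiff ℝ ∞ J)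
    (hk : AK g J) : ∃ C₁ : ℝ, 0 ≤ C₁ ∧ ∀ (h : Fld n) (δ Δ : ℝ), HK0 h J → 0 ≤ δ →
      (∀ x ∈ bdM n, ∀ v, ⟪x, v⟫_ℝ = 0 → |h x v v - g x v v| ≤ δ * g x v v) →
      (∫ x in ball (0 : E n) 1, KD h J x ≤ Δ) → |TT g h| ≤ C₁ * (δ + Δ) := by
  obtain ⟨c, hc, hcP⟩ := dpair hD hA n hn
  have hcM : IsCompact (M n) := isCompact_closedBall 0 1
  have h0M : (0 : E n) ∈ M n := mem_closedBall_self zero_le_one
  have hPc : Continuous fun x => ∑ i, ∑ j, |Pf g J i j x| :=
    continuous_finsetSum _ fun i _ => continuous_finsetSum _ fun j _ =>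
      (contDiff_Pf hg hJ i j).continuous.abs
  obtain ⟨p, hp⟩ := hcM.exists_bound_of_continuousOn hPc.continuousOn
  have hgc : Continuous g := hg.smooth.continuous
  have hgn : Continuous fun x => ‖g x‖ := (continuous_norm (E := E n →L[ℝ] E n →L[ℝ] ℝ)).comp hgc
  obtain ⟨G, hG'⟩ := hcM.exists_bound_of_continuousOn (f := fun x => ‖g x‖) hgn.continuousOn
  obtain ⟨N, hN'⟩ := hcM.exists_bound_of_continuousOn (f := fun x => ‖J x‖)
    hJ.continuous.norm.continuousOn
  have hG : ∀ x ∈ M n, ‖g x‖ ≤ G := fun x hx => (le_abs_self _).trans (hG' x hx)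
  have hN : ∀ x ∈ M n, ‖J x‖ ≤ N := fun x hx => (le_abs_self _).trans (hN' x hx)
  have hp0 : 0 ≤ p := (norm_nonneg _).trans (hp 0 h0M)
  have hG0 : 0 ≤ G := (abs_nonneg _).trans (hG' 0 h0M)
  have hN0 : 0 ≤ N := (abs_nonneg _).trans (hN' 0 h0M)
  refine ⟨c * p * (G * (2 * N ^ 2 + 1)) + p, by positivity, fun h δ Δ hk' hδ hb hΔ => ?_⟩
  have hΔ0 : 0 ≤ Δ := (integral_nonneg fun x => KD_nonneg h J x).trans hΔ
  have h1 := hcP (Pf g J) (Bf g h J) p (δ * G * (2 * N ^ 2 + 1)) Δ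
    (fun i j => (contDiff_Pf hg hJ i j).of_le (by simp))
    (fun i j => ((hk'.smM hJ i j).sub (smM_Wm hg hJ i j)).of_le (by simp))
    (fun x hx i j => by
      simp only [Pf]
      rw [Vm_anti hg hk hx i j]; ring)
    (fun x hx i j => by
      simp only [Bf]
      rw [Wm_anti hg hk hx i j, hk'.Wm_anti hx i j]; ring)
    (fun x hx j => Pf_div hg hJ hk hx j)
    (by
      refine le_trans (le_of_eq ?_) hΔ
      exact setIntegral_congr_fun measurableSet_ball fun x hx =>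
        DD_Bf hg hJ hk hk' (ball_subset_closedBall hx))
    (fun x hx i j => by
      have h2 := hp x hx
      rw [Real.norm_of_nonneg (Finset.sum_nonneg fun i _ => Finset.sum_nonneg fun j _ =>
        abs_nonneg _)] at h2
      refine le_trans ?_ h2
      refine le_trans ?_ (Finset.single_le_sum (f := fun i => ∑ j, |Pf g J i j x|)
        (fun i _ => Finset.sum_nonneg fun j _ => abs_nonneg _) (Finset.mem_univ i))
      exact Finset.single_le_sum (f := fun j => |Pf g J i j x|)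
        (fun j _ => abs_nonneg _) (Finset.mem_univ j))
    (fun x hx i j => by
      have hxb : x ∈ bdM n := by rwa [mem_sphere_zero_iff_norm]
      have hxM : x ∈ M n := sphere_subset_closedBall hxb
      refine tan0 (AK_hk0 hg hk) hk' hx hG0 hN0 hδ (fun v => ?_) (fun v => ?_)
        (fun v hv => hb x hxb v hv) i j
      · calc g x v v ≤ ‖g x v v‖ := le_abs_self _
          _ ≤ ‖g x‖ * ‖v‖ * ‖v‖ := (g x).le_opNorm₂ v v
          _ ≤ G * ‖v‖ * ‖v‖ := by gcongr; exact hG x hxM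
          _ = G * ‖v‖ ^ 2 := by ring
      · exact ((J x).le_opNorm v).trans (mul_le_mul_of_nonneg_right (hN x hxM) (norm_nonneg v)))
  rw [TT_eq0 hg hk hk', abs_neg]
  refine h1.trans ?_
  have e1 : 0 ≤ c * p * (G * (2 * N ^ 2 + 1)) * Δ := by positivity
  have e2 : 0 ≤ p * δ := by positivity
  nlinarith

/-- **Stability**, if the integral `TT` is small. -/
theorem gen_stab (hS : P_SCALE) (hA : P_ABS) (hN : P_NORM) (hn : 2 ≤ n) (hg : IsSimple g) {T : ℝ}
    (hT0 : 0 ≤ T) :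
    ∃ K : ℝ, 0 ≤ K ∧ ∀ (h : Fld n) (η s : ℝ), IsSemi h → 0 ≤ η → η ≤ 1 → η ≤ s →
      LenGeK (1 - η) g h → TT g h ≤ s * T →
      ∫ x in ball (0 : E n) 1, dev g h x ≤ K * √(s * (1 + s)) := by
  obtain ⟨c, C, hc, hC, H⟩ := core hS hA hN hn hg
  have hv := vo_pos g
  set W : ℝ := C * n * vo g with hWd
  have hW0 : 0 ≤ W := by positivity
  set A : ℝ := C * T + W with hAd
  have hCT : 0 ≤ C * T := by positivity
  have hA0 : 0 ≤ A := by positivity
  refine ⟨3 * A / c, by positivity, fun h η s hh h0 h1 hηs hl hT => ?_⟩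
  have hs : 0 ≤ s := h0.trans hηs
  have key : c * ∫ x in ball (0 : E n) 1, dev g h x ≤ (A + 2 * A) * √(s * (1 + s)) := by
    refine opt (by positivity) (by positivity) (fun t ht => ?_)
    have h2 := H h (1 - η) ((1 + s) / t) hh (by linarith) (by positivity) hl
    refine h2.trans ?_
    have h3 : C * TT g h ≤ s * (C * T) := by
      have := mul_le_mul_of_nonneg_left hT hC.le
      linarith
    have h3' : η * W ≤ s * W := mul_le_mul_of_nonneg_right hηs hW0
    have h3'' : 0 ≤ s * (C * T) := by positivity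
    have h4' : 0 ≤ s * W := by positivity
    have e1 : C * TT g h + 2 * (1 - (1 - η)) * (C * n * vo g) ≤ 2 * s * A := by
      rw [← hWd, hAd]
      nlinarith
    have e2 : 2 * C * (TT g h + 2 * n * vo g) ≤ 2 * (2 + s) * A := by
      have : 2 * C * (TT g h + 2 * n * vo g) = 2 * (C * TT g h) + 4 * W := by rw [hWd]; ring
      rw [this, hAd]
      nlinarith
    have e3 : 1 / (2 * ((1 + s) / t)) = t / (2 * (1 + s)) := by
      field_simp
    rw [e3]
    have e4 : (1 + s) / t / 2 * (C * TT g h + 2 * (1 - (1 - η)) * (C * n * vo g)) ≤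
        (1 + s) / t / 2 * (2 * s * A) := mul_le_mul_of_nonneg_left e1 (by positivity)
    have e5 : t / (2 * (1 + s)) * (2 * C * (TT g h + 2 * n * vo g)) ≤
        t / (2 * (1 + s)) * (2 * (2 + s) * A) := mul_le_mul_of_nonneg_left e2 (by positivity)
    have e6 : (1 + s) / t / 2 * (2 * s * A) = s * (1 + s) * A / t := by
      field_simp
    have e7 : t / (2 * (1 + s)) * (2 * (2 + s) * A) ≤ t * (2 * A) := by
      rw [div_mul_eq_mul_div, div_le_iff₀ (by positivity)]
      have : 0 ≤ t * A := by positivity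
      nlinarith
    linarith
  rw [div_mul_eq_mul_div, le_div_iff₀ hc, mul_comm]
  calc c * ∫ x in ball (0 : E n) 1, dev g h x ≤ (A + 2 * A) * √(s * (1 + s)) := key
    _ = 3 * A * √(s * (1 + s)) := by ring

/-- An upper bound for the boundary distances gives an upper bound on the vectors tangent to the boundary. -/
theorem up_of_dist (hB : P_BDK) {g g' : Fld n} (hg : IsMetric g) (hg' : IsMetric g') {η : ℝ} (h0 : 0 ≤ η)
    (hd2 : ∀ p ∈ bdM n, ∀ q ∈ bdM n, rdist g' p q ≤ (1 + η) * rdist g p q) :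
    ∀ x ∈ bdM n, ∀ v, ⟪x, v⟫_ℝ = 0 → g' x v v ≤ (1 + η) ^ 2 * g x v v := by
  intro x hx v hv
  have e1 := hB n g' g (1 + η)⁻¹ hg' hg (by positivity) x hx (fun q hq => by
    rw [inv_mul_le_iff₀ (by linarith)]
    exact hd2 x hx q hq) v hv
  rw [inv_pow, inv_mul_le_iff₀ (by positivity)] at e1
  exact e1

/-- **Stability for all metrics, with the Kähler defect as an error term.** -/
theorem defect_stab (hS : P_SCALE) (hA : P_ABS) (hN : P_NORM) (hD : P_DIV) (hG : P_ALG)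
    (hB : P_BDK) (hn : 3 ≤ n) (hg : IsSimple g)
    {J : E n → E n →L[ℝ] E n} (hJ : ContDiff ℝ ∞ J) (hk : AK g J) :
    ∃ K : ℝ, 0 ≤ K ∧ ∀ (g' : Fld n) (ψ : E n → E n) (η κ Δ : ℝ),
      IsMetric g' → IsFix ψ → 0 ≤ η → η ≤ 1 →
      (∀ p ∈ bdM n, ∀ q ∈ bdM n, (1 - η) * rdist g p q ≤ rdist g' p q) →
      (∀ x ∈ bdM n, ∀ v, ⟪x, v⟫_ℝ = 0 → g' x v v ≤ (1 + η) ^ 2 * g x v v) → 0 ≤ κ →
      (∀ x ∈ bdM n, ∀ v, ⟪x, v⟫_ℝ = 0 →
        |pull g' ψ x (J x v) (J x v) - pull g' ψ x v v| ≤ κ * g x v v) →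
      (∫ x in ball (0 : E n) 1, KD (invF (pull g' ψ) J) J x ≤ Δ) →
      ∫ x in ball (0 : E n) 1, dev g (pull g' ψ) x ≤ K * √((η + κ + Δ) * (1 + (η + κ + Δ))) := by
  obtain ⟨C₁, hC1, H1⟩ := int0 hD hG hn hg.toIsMetric hJ hk
  obtain ⟨K, hK, H⟩ := gen_stab hS hA hN (by omega) hg (T := 3 * C₁) (by positivity)
  refine ⟨K, hK, fun g' ψ η κ Δ hg' hψ h0 h1 hd1 hd2 k0 hh hΔ => ?_⟩
  have hΔ0 : 0 ≤ Δ := (integral_nonneg fun x => KD_nonneg _ J x).trans hΔ
  have hs := Pool.Agent.W4helper65.EN.semi_pull hg' hψ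
  have hHK := invF_hk0 hJ hk hs
  have hlen : LenGeK (1 - η) g (pull g' ψ) := by
    intro γ c1 c2 c3 c4
    have e1 := Pool.Agent.W4helper65.EN.lenGe_pull hg' hψ (fun p _ q _ => le_refl (rdist g' p q))
      γ c1 c2 c3 c4
    exact (hd1 _ c3 _ c4).trans e1
  have hbd : ∀ x ∈ bdM n, ∀ v, ⟪x, v⟫_ℝ = 0 →
      |invF (pull g' ψ) J x v v - g x v v| ≤ 3 * (η + κ) * g x v v := by
    intro x hx v hv
    have hh1 := hh x hx v hv
    have e0 : pull g' ψ x v v = g' x v v := by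
      rw [Pool.Agent.W4helper65.EN.pull_apply, fix_tangent hψ hx hv, hψ.fix x hx]
    rw [e0] at hh1
    rw [invF_apply, e0]
    have hgv : 0 ≤ g x v v := hg.toIsMetric.nonneg x v
    have hgv' : 0 ≤ g' x v v := hg'.nonneg x v
    have up : g' x v v ≤ (1 + η) ^ 2 * g x v v := hd2 x hx v hv
    have lo : (1 - η) ^ 2 * g x v v ≤ g' x v v := by
      rcases h1.eq_or_lt with rfl | h1'
      · simpa using hgv'
      · exact hB n g g' (1 - η) hg.toIsMetric hg' (by linarith) x hx (fun q hq => hd1 x hx q hq) v hv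
    have hkg : 0 ≤ κ * g x v v := mul_nonneg k0 hgv
    have hηg : 0 ≤ η * g x v v := mul_nonneg h0 hgv
    have h2g : 0 ≤ η ^ 2 * g x v v := by positivity
    have h2g' : η ^ 2 * g x v v ≤ η * g x v v := by
      refine mul_le_mul_of_nonneg_right ?_ hgv
      nlinarith
    obtain ⟨q1, q2⟩ := abs_le.1 hh1
    rw [abs_le]
    constructor
    · nlinarith
    · nlinarith
  have hT := (abs_le.1 (H1 _ (3 * (η + κ)) Δ hHK (by positivity) hbd hΔ)).2
  rw [TT_inv hg.toIsMetric hk] at hT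
  refine H (pull g' ψ) η (η + κ + Δ) hs h0 h1 (by linarith) hlen (hT.trans ?_)
  have : 0 ≤ C₁ * Δ := by positivity
  nlinarith

end Pool.Agent.W2helper20.KS
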