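import Pool.Agent.W2helper20.KS.Main

/-!
# Project KS: the forms of the theorems with the pieces as hypotheses, for the definitions of `SM`
-/

set_option autoImplicit false

namespace Pool.Agent.W2helper20.KS

open Set Metric MeasureTheory
open scoped ContDiff InnerProductSpace
open Pool.Agent.Q176 Pool.Agent.Q176.BR Pool.Agent.W2helper20.BC Pool.Agent.W2helper20.EN

variable {n : ℕ} {g g' : E n → E n → E n → ℝ}

theorem kaehler_SM (hS : P_SCALE) (hA : P_ABS) (hN : P_NORM) (hD : P_DIV) (hG : P_ALG) (hP : P_PAIR)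
    (hTa : P_TAN) (hI : P_INT) (hB : P_BDK) (hn : 3 ≤ n) (hg : SM.IsSimple g)
    {J : E n → E n →L[ℝ] E n} (hJ : ContDiff ℝ ∞ J) (hk : Pool.Agent.W2helper25.KB.AK (clm g) J) :
    ∃ K : ℝ, ∀ (g' : E n → E n → E n → ℝ) (J' : E n → E n →L[ℝ] E n) (ψ : E n → E n) (η : ℝ),
      SM.IsMetric g' → ContDiff ℝ ∞ J' → Pool.Agent.W2helper25.KB.AK (clm g') J' → IsFix ψ →
      (∀ x ∈ M n, ∀ v, fderiv ℝ ψ x (J x v) = J' (ψ x) (fderiv ℝ ψ x v)) → 0 ≤ η → η ≤ 1 →
      (∀ p ∈ bdM n, ∀ q ∈ bdM n, (1 - η) * SM.rdist g p q ≤ SM.rdist g' p q) →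
      (∀ p ∈ bdM n, ∀ q ∈ bdM n, SM.rdist g' p q ≤ (1 + η) * SM.rdist g p q) →
      ∫ x in M n, ∑ i, ∑ j, |pullback ψ g' x (EuclideanSpace.single i 1)
        (EuclideanSpace.single j 1) - g x (EuclideanSpace.single i 1)
          (EuclideanSpace.single j 1)| ≤ K * √η := by
  have hm := hg.toIsMetric
  obtain ⟨K, -, H⟩ := kaehler_stab hS hA hN hD hG hP hTa hI hB hn (clm_simple hg) hJ hk
  refine ⟨K, fun g' J' ψ η hg' hJ' hk' hψ hol h0 h1 hd1 hd2 => ?_⟩
  have h2 := H (clm g') J' ψ η (clm_metric hg') hJ' hk' hψ hol h0 h1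
    (fun p hp q hq => by
      rw [clm_rdist hm, clm_rdist hg']
      exact hd1 p hp q hq)
    (fun p hp q hq => by
      rw [clm_rdist hm, clm_rdist hg']
      exact hd2 p hp q hq)
  simp only [dev_bridge hm hg'] at h2
  rw [int_M]
  exact h2

end Pool.Agent.W2helper20.KS
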