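import Pool.Agent.W2helper20.KS.Main

/-!
# Project KS: the case `η = 0`
-/

set_option autoImplicit false

namespace Pool.Agent.W2helper20.KS

open Set Metric MeasureTheory Filter
open scoped ContDiff InnerProductSpace
open Pool.Agent.Q176 Pool.Agent.Q176.BR Pool.Agent.W2helper20.BC Pool.Agent.W2helper20.EN

variable {n : ℕ}

theorem zero_of_int {f : E n → ℝ} (hf : Continuous f) (h0 : ∀ x, 0 ≤ f x)
    (hI : ∫ x in M n, f x ≤ 0) : ∀ x ∈ M n, f x = 0 := by
  have hint : IntegrableOn f (M n) := hf.continuousOn.integrableOn_compact (isCompact_closedBall _ _)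
  have h1 : ∫ x in M n, f x = 0 := le_antisymm hI (integral_nonneg fun x => h0 x)
  have h2 := (integral_eq_zero_iff_of_nonneg_ae (Eventually.of_forall fun x => h0 x) hint).1 h1
  have h3 := ae_restrict_of_ae_restrict_of_subset (ball_subset_closedBall (x := (0 : E n)) (ε := 1)) h2
  have h4 : EqOn f 0 (ball (0 : E n) 1) :=
    Measure.eqOn_open_of_ae_eq h3 isOpen_ball hf.continuousOn continuousOn_const
  have h5 := h4.closure hf continuous_const
  rw [closure_ball _ one_ne_zero] at h5
  exact h5

theorem eq_of_dev {g g' : E n → E n → E n → ℝ} (hg : SM.IsMetric g) (hg' : SM.IsMetric g')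
    {ψ : E n → E n} (hψ : IsFix ψ)
    (hI : ∫ x in M n, ∑ i, ∑ j, |pullback ψ g' x (EuclideanSpace.single i 1)
        (EuclideanSpace.single j 1) - g x (EuclideanSpace.single i 1)
          (EuclideanSpace.single j 1)| ≤ 0) :
    ∀ x ∈ M n, pullback ψ g' x = g x := by
  have hs := Pool.Agent.W4helper65.EN.semi_pull (clm_metric hg') hψ
  simp only [← dev_bridge hg hg'] at hI
  have h1 := zero_of_int (dev_cont (clm_metric hg).smooth.continuous hs.smooth.continuous)
    (fun x => Finset.sum_nonneg fun i _ => Finset.sum_nonneg fun j _ => abs_nonneg _) hI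
  intro x hx
  have h2 := h1 x hx
  unfold dev at h2
  have h3 : ∀ i j : Fin n, pull (clm g') ψ x (bs i) (bs j) = clm g x (bs i) (bs j) := by
    intro i j
    have h4 := (Finset.sum_eq_zero_iff_of_nonneg fun i _ =>
      Finset.sum_nonneg fun j _ => abs_nonneg _).1 h2 i (Finset.mem_univ _)
    have h5 := (Finset.sum_eq_zero_iff_of_nonneg fun j _ => abs_nonneg _).1 h4 j (Finset.mem_univ _)
    rw [abs_eq_zero] at h5
    linarith
  have h6 : pull (clm g') ψ x = clm g x := by
    ext v w
    rw [← sum_bs v, ← sum_bs w]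
    simp only [map_sum, map_smul, sum_apply, smul_apply, smul_eq_mul, h3]
  funext v w
  rw [← clm_apply hg, ← h6, pull_apply, clm_apply hg']
  rfl

end Pool.Agent.W2helper20.KS
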