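import Pool.Agent.W2helper20.KS.Fin0
import Pool.Agent.W2helper20.KS.Zero
import Pool.Agent.W2helper19.KS.SCALE
import Pool.Agent.W2helper27.KS.PAIR
import Pool.Agent.W2helper51.KS.TAN
import Pool.Agent.W2helper52.KS.INT
import Pool.Agent.W2helper56.KS.ALG
import Pool.Agent.W2helper60.KS.NORM
import Pool.Agent.W2helper85.KS.DIV
import Pool.Agent.W2helper88.KS.BDK
import Pool.Agent.W2helper98.KS.ABS

/-!
# Project KS: stability for almost Kähler metrics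
-/

set_option autoImplicit false

namespace Pool.Agent.W2helper20.KS

open Set Metric MeasureTheory
open scoped ContDiff InnerProductSpace
open Pool.Agent.Q176 Pool.Agent.Q176.BR Pool.Agent.W2helper20.BC Pool.Agent.W2helper20.EN

variable {n : ℕ} {g : E n → E n → E n → ℝ}

theorem kaehlerF (hn : 3 ≤ n) (hg : SM.IsSimple g)
    {J : E n → E n →L[ℝ] E n} (hJ : ContDiff ℝ ∞ J) (hk : Pool.Agent.W2helper25.KB.AK (clm g) J) :
    ∃ K : ℝ, ∀ (g' : E n → E n → E n → ℝ) (J' : E n → E n →L[ℝ] E n) (ψ : E n → E n) (η : ℝ),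
      SM.IsMetric g' → ContDiff ℝ ∞ J' → Pool.Agent.W2helper25.KB.AK (clm g') J' → IsFix ψ →
      (∀ x ∈ M n, ∀ v, fderiv ℝ ψ x (J x v) = J' (ψ x) (fderiv ℝ ψ x v)) → 0 ≤ η → η ≤ 1 →
      (∀ p ∈ bdM n, ∀ q ∈ bdM n, (1 - η) * SM.rdist g p q ≤ SM.rdist g' p q) →
      (∀ p ∈ bdM n, ∀ q ∈ bdM n, SM.rdist g' p q ≤ (1 + η) * SM.rdist g p q) →
      ∫ x in M n, ∑ i, ∑ j, |pullback ψ g' x (EuclideanSpace.single i 1)
        (EuclideanSpace.single j 1) - g x (EuclideanSpace.single i 1)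
          (EuclideanSpace.single j 1)| ≤ K * √η :=
  kaehler_SM Pool.Agent.W2helper19.KS.p_SCALE Pool.Agent.W2helper98.KS.p_ABS
    Pool.Agent.W2helper60.KS.p_NORM Pool.Agent.W2helper85.KS.p_DIV Pool.Agent.W2helper56.KS.p_ALG
    Pool.Agent.W2helper27.KS.p_PAIR Pool.Agent.W2helper51.KS.p_TAN Pool.Agent.W2helper52.KS.p_INT
    Pool.Agent.W2helper88.KS.p_BDK hn hg hJ hk

end Pool.Agent.W2helper20.KS
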