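import Pool.Agent.W2helper20.KS.Defect
import Pool.Agent.W2helper20.KS.FinK

/-!
# The universal stability estimate, for the definitions of `SM`
-/

set_option autoImplicit false

namespace Pool.Agent.W2helper20.KS

open Set Metric MeasureTheory Filter Topology
open scoped ContDiff InnerProductSpace
open Pool.Agent.Q176 Pool.Agent.Q176.BR Pool.Agent.W2helper20.BC Pool.Agent.W2helper20.EN

variable {n : ℕ} {g g' : E n → E n → E n → ℝ} {J : E n → E n →L[ℝ] E n}

/-- The fundamental form of the Hermitian part. -/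
noncomputable def ff (h : E n → E n → E n → ℝ) (J : E n → E n →L[ℝ] E n) : E n → E n → E n → ℝ :=
  fun x v w => (h x (J x v) w + h x (J x (J x v)) (J x w)) / 2

/-- The size of its exterior derivative. -/
noncomputable def kd (h : E n → E n → E n → ℝ) (J : E n → E n →L[ℝ] E n) (x : E n) : ℝ :=
  ∑ i, ∑ j, ∑ k, |SM.dg (ff h J) x (EuclideanSpace.single i 1) (EuclideanSpace.single j 1)
      (EuclideanSpace.single k 1) + SM.dg (ff h J) x (EuclideanSpace.single j 1)
      (EuclideanSpace.single k 1) (EuclideanSpace.single i 1) + SM.dg (ff h J) x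
      (EuclideanSpace.single k 1) (EuclideanSpace.single i 1) (EuclideanSpace.single j 1)|

theorem kd_bridge (hg' : SM.IsMetric g') (ψ : E n → E n) (x : E n) :
    KD (invF (pull (clm g') ψ) J) J x = kd (pullback ψ g') J x := by
  have e : ∀ a b, (fun y => invF (pull (clm g') ψ) J y (J y a) b) =
      fun y => ff (pullback ψ g') J y a b := by
    intro a b
    funext y
    rw [invF_apply, pull_apply, pull_apply, clm_apply hg', clm_apply hg']
    rfl
  simp only [KD, e]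
  rfl

theorem defectF (hn : 3 ≤ n) (hg : SM.IsSimple g) (hJ : ContDiff ℝ ∞ J)
    (hk : Pool.Agent.W2helper25.KB.AK (clm g) J) :
    ∃ K : ℝ, 0 ≤ K ∧ ∀ (g' : E n → E n → E n → ℝ) (ψ : E n → E n) (η κ Δ : ℝ),
      SM.IsMetric g' → IsFix ψ → 0 ≤ η → η ≤ 1 →
      (∀ p ∈ bdM n, ∀ q ∈ bdM n, (1 - η) * SM.rdist g p q ≤ SM.rdist g' p q) →
      (∀ x ∈ bdM n, ∀ v, ⟪x, v⟫_ℝ = 0 → g' x v v ≤ (1 + η) ^ 2 * g x v v) → 0 ≤ κ →
      (∀ x ∈ bdM n, ∀ v, ⟪x, v⟫_ℝ = 0 →
        |pullback ψ g' x (J x v) (J x v) - pullback ψ g' x v v| ≤ κ * g x v v) →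
      (∫ x in M n, kd (pullback ψ g') J x ≤ Δ) →
      ∫ x in M n, ∑ i, ∑ j, |pullback ψ g' x (EuclideanSpace.single i 1)
        (EuclideanSpace.single j 1) - g x (EuclideanSpace.single i 1)
          (EuclideanSpace.single j 1)| ≤ K * √((η + κ + Δ) * (1 + (η + κ + Δ))) := by
  have hm := hg.toIsMetric
  obtain ⟨K, hK, H⟩ := defect_stab Pool.Agent.W2helper19.KS.p_SCALE Pool.Agent.W2helper98.KS.p_ABS
    Pool.Agent.W2helper60.KS.p_NORM Pool.Agent.W2helper85.KS.p_DIV Pool.Agent.W2helper56.KS.p_ALG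
    Pool.Agent.W2helper88.KS.p_BDK hn (clm_simple hg) hJ hk
  refine ⟨K, hK, fun g' ψ η κ Δ hg' hψ h0 h1 hd1 hd2 k0 hh hΔ => ?_⟩
  have e0 : ∀ x v, pull (clm g') ψ x v v = pullback ψ g' x v v := by
    intro x v
    rw [pull_apply, clm_apply hg']
    rfl
  have h2 := H (clm g') ψ η κ Δ (clm_metric hg') hψ h0 h1
    (fun p hp q hq => by
      rw [clm_rdist hm, clm_rdist hg']
      exact hd1 p hp q hq)
    (fun x hx v hv => by
      rw [clm_apply hm, clm_apply hg']
      exact hd2 x hx v hv) k0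
    (fun x hx v hv => by
      rw [e0, e0, clm_apply hm]
      exact hh x hx v hv)
    (by
      simp only [kd_bridge hg']
      rw [← int_M]
      exact hΔ)
  simp only [dev_bridge hm hg'] at h2
  rw [int_M]
  exact h2

theorem up_SM (hg : SM.IsMetric g) (hg' : SM.IsMetric g') {η : ℝ} (h0 : 0 ≤ η)
    (hd2 : ∀ p ∈ bdM n, ∀ q ∈ bdM n, SM.rdist g' p q ≤ (1 + η) * SM.rdist g p q) :
    ∀ x ∈ bdM n, ∀ v, ⟪x, v⟫_ℝ = 0 → g' x v v ≤ (1 + η) ^ 2 * g x v v := by
  intro x hx v hv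
  have h := up_of_dist Pool.Agent.W2helper88.KS.p_BDK (clm_metric hg) (clm_metric hg') h0
    (fun p hp q hq => by
      rw [clm_rdist hg, clm_rdist hg']
      exact hd2 p hp q hq) x hx v hv
  rw [clm_apply hg, clm_apply hg'] at h
  exact h

theorem kd_zero {J' : E n → E n →L[ℝ] E n} {ψ : E n → E n}
    (hk : Pool.Agent.W2helper25.KB.AK (clm g) J) (hg' : SM.IsMetric g')
    (hJ' : ContDiff ℝ ∞ J') (hk' : Pool.Agent.W2helper25.KB.AK (clm g') J') (hψ : IsFix ψ)
    (hol : ∀ x ∈ M n, ∀ v, fderiv ℝ ψ x (J x v) = J' (ψ x) (fderiv ℝ ψ x v)) :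
    (∀ x ∈ M n, ∀ v w, pullback ψ g' x (J x v) (J x w) = pullback ψ g' x v w) ∧
      ∫ x in M n, kd (pullback ψ g') J x ≤ 0 := by
  obtain ⟨h1, h2⟩ := part_of_hol hk (clm_metric hg') hJ' hk' hψ hol
  refine ⟨fun x hx v w => ?_, ?_⟩
  · have h3 := h1 x hx v w
    rw [pull_apply, pull_apply, clm_apply hg', clm_apply hg'] at h3
    exact h3
  · rw [int_M]
    refine le_of_eq ?_
    rw [setIntegral_congr_fun (g := fun _ => (0 : ℝ)) measurableSet_ball, integral_zero]
    intro x hx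
    simp only [← kd_bridge hg']
    unfold KD
    refine Finset.sum_eq_zero fun k _ => Finset.sum_eq_zero fun i _ => Finset.sum_eq_zero fun j _ => ?_
    rw [abs_eq_zero]
    exact h2 x hx (bs k) (bs i) (bs j)

end Pool.Agent.W2helper20.KS
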