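import Pool.Agent.W2helper20.KS.Bal
import Pool.Agent.W2helper20.KS.FinD

/-!
# The universal stability estimate for balanced metrics, for the definitions of `SM`
-/

set_option autoImplicit false

namespace Pool.Agent.W2helper20.KS

open Set Metric MeasureTheory Filter Topology
open scoped ContDiff InnerProductSpace
open Pool.Agent.Q176 Pool.Agent.Q176.BR Pool.Agent.W2helper20.BC Pool.Agent.W2helper20.EN
open Pool.Agent.W2helper25.KB (Jm Pf Bf Vm Wm_apply Pf_div)

variable {n : ℕ} {g g' : E n → E n → E n → ℝ} {J : E n → E n →L[ℝ] E n}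

/-- The components `√(det g) ω^{ij}`. -/
noncomputable def rais (g : E n → E n → E n → ℝ) (J : E n → E n →L[ℝ] E n) (i j : Fin n) (x : E n) : ℝ :=
  √(gramMatrix g x).det * ((gramMatrix g x)⁻¹ * (Jm J x).transpose) i j

theorem Pf_rais (hg : SM.IsMetric g) (i j : Fin n) : Pf (clm g) J i j = fun x => -rais g J i j x := by
  funext x
  unfold Pf Vm rais
  rw [gram_clm' hg, Matrix.neg_apply]
  ring

theorem bal_of (hg : SM.IsMetric g)
    (hbal : ∀ x ∈ ball (0 : E n) 1, ∀ j, ∑ i, fderiv ℝ (rais g J i j) x (bs i) = 0) :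
    ∀ x ∈ ball (0 : E n) 1, ∀ j, ∑ i, fderiv ℝ (Pf (clm g) J i j) x (bs i) = 0 := by
  intro x hx j
  have h := hbal x hx j
  simp only [Pf_rais hg]
  rw [← neg_eq_zero, ← Finset.sum_neg_distrib]
  rw [← h]
  refine Finset.sum_congr rfl fun i _ => ?_
  rw [fderiv_fun_neg]
  simp

theorem of_bal (hg : SM.IsMetric g) (hJ : ContDiff ℝ ∞ J)
    (hk : Pool.Agent.W2helper25.KB.AK (clm g) J) :
    ∀ x ∈ ball (0 : E n) 1, ∀ j, ∑ i, fderiv ℝ (rais g J i j) x (bs i) = 0 := by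
  intro x hx j
  have h := Pf_div (clm_metric hg) hJ hk hx j
  simp only [Pf_rais hg] at h
  rw [← neg_eq_zero, ← Finset.sum_neg_distrib]
  rw [← h]
  refine Finset.sum_congr rfl fun i _ => ?_
  rw [fderiv_fun_neg]
  simp

/-- The size of the exterior derivative of the difference of the fundamental forms. -/
noncomputable def kdB (g h : E n → E n → E n → ℝ) (J : E n → E n →L[ℝ] E n) (x : E n) : ℝ :=
  ∑ i, ∑ j, ∑ k, |SM.dg (fun y v w => ff h J y v w - g y (J y v) w) x (EuclideanSpace.single i 1)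
      (EuclideanSpace.single j 1) (EuclideanSpace.single k 1) +
      SM.dg (fun y v w => ff h J y v w - g y (J y v) w) x (EuclideanSpace.single j 1)
      (EuclideanSpace.single k 1) (EuclideanSpace.single i 1) +
      SM.dg (fun y v w => ff h J y v w - g y (J y v) w) x
      (EuclideanSpace.single k 1) (EuclideanSpace.single i 1) (EuclideanSpace.single j 1)|

theorem kdB_bridge (hg : SM.IsMetric g) (hg' : SM.IsMetric g') (ψ : E n → E n) (x : E n) :
    DD (Bf (clm g) (invF (pull (clm g') ψ) J) J) x = kdB g (pullback ψ g') J x := by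
  have e : ∀ a b, Bf (clm g) (invF (pull (clm g') ψ) J) J a b =
      fun y => ff (pullback ψ g') J y (bs a) (bs b) - g y (J y (bs a)) (bs b) := by
    intro a b
    funext y
    unfold Bf
    rw [Wm_apply, Wm_apply, invF_apply, pull_apply, pull_apply, clm_apply hg', clm_apply hg',
      clm_apply hg]
    rfl
  simp only [DD, e]
  rfl

theorem defectB (hn : 3 ≤ n) (hg : SM.IsSimple g) (hJ : ContDiff ℝ ∞ J) (hk : AH (clm g) J)
    (hbal : ∀ x ∈ ball (0 : E n) 1, ∀ j, ∑ i, fderiv ℝ (rais g J i j) x (bs i) = 0) :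
    ∃ K : ℝ, 0 ≤ K ∧ ∀ (g' : E n → E n → E n → ℝ) (ψ : E n → E n) (η κ Δ : ℝ),
      SM.IsMetric g' → IsFix ψ → 0 ≤ η → η ≤ 1 →
      (∀ p ∈ bdM n, ∀ q ∈ bdM n, (1 - η) * SM.rdist g p q ≤ SM.rdist g' p q) →
      (∀ x ∈ bdM n, ∀ v, ⟪x, v⟫_ℝ = 0 → g' x v v ≤ (1 + η) ^ 2 * g x v v) → 0 ≤ κ →
      (∀ x ∈ bdM n, ∀ v, ⟪x, v⟫_ℝ = 0 →
        |pullback ψ g' x (J x v) (J x v) - pullback ψ g' x v v| ≤ κ * g x v v) →
      (∫ x in M n, kdB g (pullback ψ g') J x ≤ Δ) →
      ∫ x in M n, ∑ i, ∑ j, |pullback ψ g' x (EuclideanSpace.single i 1)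
        (EuclideanSpace.single j 1) - g x (EuclideanSpace.single i 1)
          (EuclideanSpace.single j 1)| ≤ K * √((η + κ + Δ) * (1 + (η + κ + Δ))) := by
  have hm := hg.toIsMetric
  obtain ⟨K, hK, H⟩ := defect_stabB Pool.Agent.W2helper19.KS.p_SCALE Pool.Agent.W2helper98.KS.p_ABS
    Pool.Agent.W2helper60.KS.p_NORM Pool.Agent.W2helper85.KS.p_DIV Pool.Agent.W2helper56.KS.p_ALG
    Pool.Agent.W2helper88.KS.p_BDK hn (clm_simple hg) hJ hk (bal_of hm hbal)
  refine ⟨K, hK, fun g' ψ η κ Δ hg' hψ h0 h1 hd1 hd2 k0 hh hΔ => ?_⟩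
  have e0 : ∀ x v, pull (clm g') ψ x v v = pullback ψ g' x v v := by
    intro x v
    rw [pull_apply, clm_apply hg']
    rfl
  have h2 := H (clm g') ψ η κ Δ (clm_metric hg') hψ h0 h1
    (fun p hp q hq => by
      rw [clm_rdist hm, clm_rdist hg']
      exact hd1 p hp q hq)
    (fun x hx v hv => by
      rw [clm_apply hm, clm_apply hg']
      exact hd2 x hx v hv) k0
    (fun x hx v hv => by
      rw [e0, e0, clm_apply hm]
      exact hh x hx v hv)
    (by
      simp only [kdB_bridge hm hg']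
      rw [← int_M]
      exact hΔ)
  simp only [dev_bridge hm hg'] at h2
  rw [int_M]
  exact h2

theorem kdB_zero {J' : E n → E n →L[ℝ] E n} {ψ : E n → E n} (hg : SM.IsMetric g)
    (hJ : ContDiff ℝ ∞ J) (hk : Pool.Agent.W2helper25.KB.AK (clm g) J) (hg' : SM.IsMetric g')
    (hJ' : ContDiff ℝ ∞ J') (hk' : Pool.Agent.W2helper25.KB.AK (clm g') J') (hψ : IsFix ψ)
    (hol : ∀ x ∈ M n, ∀ v, fderiv ℝ ψ x (J x v) = J' (ψ x) (fderiv ℝ ψ x v)) :
    (∀ x ∈ M n, ∀ v w, pullback ψ g' x (J x v) (J x w) = pullback ψ g' x v w) ∧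
      ∫ x in M n, kdB g (pullback ψ g') J x ≤ 0 := by
  obtain ⟨h1, h2⟩ := part_of_hol hk (clm_metric hg') hJ' hk' hψ hol
  refine ⟨(kd_zero hk hg' hJ' hk' hψ hol).1, ?_⟩
  rw [int_M]
  refine le_of_eq ?_
  rw [setIntegral_congr_fun (g := fun _ => (0 : ℝ)) measurableSet_ball, integral_zero]
  intro x hx
  have hs := Pool.Agent.W4helper65.EN.semi_pull (clm_metric hg') hψ
  simp only [← kdB_bridge hg hg']
  rw [DD_Bf (clm_metric hg) hJ hk (invF_hk0 hJ hk hs) (ball_subset_closedBall hx)]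
  unfold KD
  refine Finset.sum_eq_zero fun k _ => Finset.sum_eq_zero fun i _ => Finset.sum_eq_zero fun j _ => ?_
  rw [abs_eq_zero]
  exact h2 x hx (bs k) (bs i) (bs j)

end Pool.Agent.W2helper20.KS
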