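import Pool.Agent.W2helper20.KS.Main
import Pool.Agent.W2helper19.KS.SCALE
import Pool.Agent.W2helper60.KS.NORM
import Pool.Agent.W2helper98.KS.ABS

/-!
# Project KS: stability of the energy criterion
-/

set_option autoImplicit false

namespace Pool.Agent.W2helper20.KS

open Set Metric MeasureTheory
open scoped ContDiff InnerProductSpace
open Pool.Agent.Q176 Pool.Agent.Q176.BR Pool.Agent.W2helper20.BC Pool.Agent.W2helper20.EN

variable {n : ℕ} {g : E n → E n → E n → ℝ}

theorem energyF (hn : 2 ≤ n) (hg : SM.IsSimple g) :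
    ∃ C : ℝ, ∀ (g' : E n → E n → E n → ℝ) (ψ : E n → E n) (ε η : ℝ), SM.IsMetric g' →
      FixesBoundary ψ → 0 ≤ ε → 0 ≤ η → η ≤ 1 →
      (∀ x ∈ bdM n, ∀ y ∈ bdM n, (1 - η) * SM.rdist g x y ≤ SM.rdist g' x y) →
      energy 2 g g' ψ ≤ (1 + ε) * vol g →
      ∫ x in M n, ∑ i, ∑ j, |pullback ψ g' x (EuclideanSpace.single i 1)
        (EuclideanSpace.single j 1) - g x (EuclideanSpace.single i 1)
          (EuclideanSpace.single j 1)| ≤ C * √((ε + η) * (1 + (ε + η))) :=
  energy_SM Pool.Agent.W2helper19.KS.p_SCALE Pool.Agent.W2helper98.KS.p_ABS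
    Pool.Agent.W2helper60.KS.p_NORM hn hg

end Pool.Agent.W2helper20.KS
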