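import Pool.Agent.W2helper20.KS.Main

/-!
# Stability for metrics whose Hermitian part is almost Kähler
-/

set_option autoImplicit false

namespace Pool.Agent.W2helper20.KS

open Set Metric MeasureTheory Filter Topology
open scoped ContDiff InnerProductSpace ENNReal
open Pool.Agent.Q176.BR Pool.Agent.W2helper20.BC Pool.Agent.W2helper25.KB

variable {n : ℕ} {g h g' : Fld n} {J : E n → E n →L[ℝ] E n}

/-- The `J`-invariant part of `h`. -/
noncomputable def invF (h : Fld n) (J : E n → E n →L[ℝ] E n) : Fld n :=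
  fun x => (1 / 2 : ℝ) • (h x + (h x).bilinearComp (J x) (J x))

theorem invF_apply (x v w : E n) : invF h J x v w = (h x v w + h x (J x v) (J x w)) / 2 := by
  simp only [invF, smul_apply, add_apply, ContinuousLinearMap.bilinearComp_apply, smul_eq_mul]
  ring

theorem invF_hk (hJ : ContDiff ℝ ∞ J) (hk : AK g J) (hs : IsSemi h)
    (hcl : ∀ x ∈ ball (0 : E n) 1, ∀ u v w, fderiv ℝ (fun y => invF h J y (J y v) w) x u +
      fderiv ℝ (fun y => invF h J y (J y w) u) x v + fderiv ℝ (fun y => invF h J y (J y u) v) x w = 0) :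
    HK (invF h J) J := by
  refine ⟨?_, ?_, hk.sq, ?_, hcl⟩
  · rw [contDiff_clm_apply_iff]
    intro v
    rw [contDiff_clm_apply_iff]
    intro w
    simp only [invF_apply]
    have h1 : ContDiff ℝ ∞ (fun x => h x v w) :=
      (hs.smooth.clm_apply contDiff_const).clm_apply contDiff_const
    have h2 : ContDiff ℝ ∞ (fun x => h x (J x v) (J x w)) :=
      (hs.smooth.clm_apply (hJ.clm_apply contDiff_const)).clm_apply (hJ.clm_apply contDiff_const)
    exact (h1.add h2).div_const 2
  · intro x v w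
    rw [invF_apply, invF_apply, hs.symm x v w, hs.symm x (J x v)]
  · intro x hx v w
    rw [invF_apply, invF_apply, hk.sq x hx, hk.sq x hx]
    simp only [map_neg, neg_apply, neg_neg]
    ring

theorem trace_inv (hg : IsMetric g) (hk : AK g J) {x : E n} (hx : x ∈ M n)
    (b : E n →L[ℝ] E n →L[ℝ] ℝ) :
    ((gram (g x))⁻¹ * gram (b.bilinearComp (J x) (J x))).trace = ((gram (g x))⁻¹ * gram b).trace := by
  have e1 : ∀ c : E n →L[ℝ] E n →L[ℝ] ℝ,
      gram (c.bilinearComp (J x) (J x)) = (Jm J x).transpose * gram c * Jm J x := by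
    intro c
    ext i j
    rw [gram_apply, ContinuousLinearMap.bilinearComp_apply]
    conv_lhs => rw [← sum_bs (J x (bs i)), ← sum_bs (J x (bs j))]
    simp only [map_sum, map_smul, sum_apply, smul_apply, smul_eq_mul, Matrix.mul_apply,
      Matrix.transpose_apply, Jm, Matrix.of_apply, gram_apply, Finset.sum_mul, Finset.mul_sum]
    refine Finset.sum_congr rfl fun a _ => Finset.sum_congr rfl fun b _ => ?_
    ring
  have e2 : (Jm J x).transpose * gram (g x) * Jm J x = gram (g x) := by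
    rw [← e1]
    ext i j
    rw [gram_apply, gram_apply, ContinuousLinearMap.bilinearComp_apply, hk.herm x hx]
  have e3 : gram (g x) * Jm J x = -((Jm J x).transpose * gram (g x)) := by
    conv_lhs => rw [← e2]
    rw [Matrix.mul_assoc, Jm_sq hk hx, Matrix.mul_neg, Matrix.mul_one]
  have hu := isUnit_gram hg x
  have e4 : Jm J x * (gram (g x))⁻¹ = -((gram (g x))⁻¹ * (Jm J x).transpose) := by
    have h1 := congrArg (fun A => (gram (g x))⁻¹ * A * (gram (g x))⁻¹) e3
    rw [← Matrix.mul_assoc, Matrix.nonsing_inv_mul _ hu, Matrix.one_mul, Matrix.mul_neg,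
      Matrix.neg_mul, ← Matrix.mul_assoc, Matrix.mul_assoc _ (gram (g x)),
      Matrix.mul_nonsing_inv _ hu, Matrix.mul_one] at h1
    exact h1
  have e5 : (Jm J x).transpose * (Jm J x).transpose = -1 := by
    rw [← Matrix.transpose_mul, Jm_sq hk hx]
    simp
  rw [e1]
  calc ((gram (g x))⁻¹ * ((Jm J x).transpose * gram b * Jm J x)).trace
      = (((gram (g x))⁻¹ * (Jm J x).transpose * gram b) * Jm J x).trace := by
        rw [← Matrix.mul_assoc, ← Matrix.mul_assoc]
    _ = (Jm J x * ((gram (g x))⁻¹ * (Jm J x).transpose * gram b)).trace := Matrix.trace_mul_comm _ _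
    _ = ((Jm J x * (gram (g x))⁻¹) * (Jm J x).transpose * gram b).trace := by
        rw [← Matrix.mul_assoc, ← Matrix.mul_assoc]
    _ = ((gram (g x))⁻¹ * gram b).trace := by
        rw [e4, Matrix.neg_mul, Matrix.mul_assoc _ _ (Jm J x).transpose, e5]
        simp

theorem TT_inv (hg : IsMetric g) (hk : AK g J) (h : Fld n) : TT g (invF h J) = TT g h := by
  unfold TT
  refine setIntegral_congr_fun measurableSet_ball fun x hx => ?_
  have hxM : x ∈ M n := ball_subset_closedBall hx
  have e1 : gram (invF h J x) = (1 / 2 : ℝ) • (gram (h x) + gram ((h x).bilinearComp (J x) (J x))) := by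
    ext i j
    simp only [gram_apply, invF, Matrix.smul_apply, Matrix.add_apply, smul_apply, add_apply]
  have e2 : ((gram (g x))⁻¹ * gram (invF h J x)).trace = ((gram (g x))⁻¹ * gram (h x)).trace := by
    rw [e1, Matrix.mul_smul, Matrix.mul_add, Matrix.trace_smul, Matrix.trace_add,
      trace_inv hg hk hxM, smul_eq_mul]
    ring
  simp only [e2]

/-- **Stability for metrics whose Hermitian part is almost Kähler.** -/
theorem part_stab (hS : P_SCALE) (hA : P_ABS) (hN : P_NORM) (hD : P_DIV) (hG : P_ALG) (hP : P_PAIR)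
    (hTa : P_TAN) (hI : P_INT) (hB : P_BDK) (hn : 3 ≤ n) (hg : IsSimple g)
    {J : E n → E n →L[ℝ] E n} (hJ : ContDiff ℝ ∞ J) (hk : AK g J) :
    ∃ K : ℝ, 0 ≤ K ∧ ∀ (g' : Fld n) (ψ : E n → E n) (η κ : ℝ),
      IsMetric g' → IsFix ψ → 0 ≤ κ → κ ≤ 1 →
      (∀ x ∈ bdM n, ∀ v, ⟪x, v⟫_ℝ = 0 →
        |pull g' ψ x (J x v) (J x v) - pull g' ψ x v v| ≤ κ * g x v v) →
      (∀ x ∈ ball (0 : E n) 1, ∀ u v w, fderiv ℝ (fun y => invF (pull g' ψ) J y (J y v) w) x u +
        fderiv ℝ (fun y => invF (pull g' ψ) J y (J y w) u) x v +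
          fderiv ℝ (fun y => invF (pull g' ψ) J y (J y u) v) x w = 0) → 0 ≤ η → η ≤ 1 →
      (∀ p ∈ bdM n, ∀ q ∈ bdM n, (1 - η) * rdist g p q ≤ rdist g' p q) →
      (∀ p ∈ bdM n, ∀ q ∈ bdM n, rdist g' p q ≤ (1 + η) * rdist g p q) →
      ∫ x in ball (0 : E n) 1, dev g (pull g' ψ) x ≤ K * √(η + κ) := by
  obtain ⟨c, C, hc, hC, H⟩ := core hS hA hN (by omega) hg
  obtain ⟨C₁, hC1, H1⟩ := hI hD hG hP hTa n g J hn hg.toIsMetric hJ hk
  have hv := vo_pos g
  set A : ℝ := C * n * vo g with hAd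
  have hA0 : 0 ≤ A := by positivity
  set B : ℝ := 6 * (C * C₁) + 2 * A with hBd
  have hB0 : 0 ≤ B := by positivity
  refine ⟨2 * B / c, by positivity, fun g' ψ η κ hg' hψ k0 k1 hh hcl h0 h1 hd1 hd2 => ?_⟩
  have hs := Pool.Agent.W4helper65.EN.semi_pull hg' hψ
  have hHK := invF_hk hJ hk hs hcl
  have hlen : LenGeK (1 - η) g (pull g' ψ) := by
    intro γ c1 c2 c3 c4
    have e1 := Pool.Agent.W4helper65.EN.lenGe_pull hg' hψ (fun p _ q _ => le_refl (rdist g' p q))
      γ c1 c2 c3 c4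
    exact (hd1 _ c3 _ c4).trans e1
  have hbd : ∀ x ∈ bdM n, ∀ v, ⟪x, v⟫_ℝ = 0 →
      |invF (pull g' ψ) J x v v - g x v v| ≤ 3 * (η + κ) * g x v v := by
    intro x hx v hv
    have hh1 := hh x hx v hv
    have e0 : pull g' ψ x v v = g' x v v := by
      rw [Pool.Agent.W4helper65.EN.pull_apply, fix_tangent hψ hx hv, hψ.fix x hx]
    rw [e0] at hh1
    rw [invF_apply, e0]
    have hgv : 0 ≤ g x v v := hg.toIsMetric.nonneg x v
    have hgv' : 0 ≤ g' x v v := hg'.nonneg x v
    have up : g' x v v ≤ (1 + η) ^ 2 * g x v v := by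
      have e1 := hB n g' g (1 + η)⁻¹ hg' hg.toIsMetric (by positivity) x hx (fun q hq => by
        rw [inv_mul_le_iff₀ (by linarith)]
        exact hd2 x hx q hq) v hv
      rw [inv_pow, inv_mul_le_iff₀ (by positivity)] at e1
      exact e1
    have lo : (1 - η) ^ 2 * g x v v ≤ g' x v v := by
      rcases h1.eq_or_lt with rfl | h1'
      · simpa using hgv'
      · exact hB n g g' (1 - η) hg.toIsMetric hg' (by linarith) x hx (fun q hq => hd1 x hx q hq) v hv
    have hkg : 0 ≤ κ * g x v v := mul_nonneg k0 hgv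
    have hηg : 0 ≤ η * g x v v := mul_nonneg h0 hgv
    have h2g : 0 ≤ η ^ 2 * g x v v := by positivity
    have h2g' : η ^ 2 * g x v v ≤ η * g x v v := by
      refine mul_le_mul_of_nonneg_right ?_ hgv
      nlinarith
    obtain ⟨q1, q2⟩ := abs_le.1 hh1
    rw [abs_le]
    constructor
    · nlinarith
    · nlinarith
  have hT := (abs_le.1 (H1 _ (3 * (η + κ)) hHK (by positivity) hbd)).2
  rw [TT_inv hg.toIsMetric hk] at hT
  have key : c * ∫ x in ball (0 : E n) 1, dev g (pull g' ψ) x ≤ (B + B) * √(η + κ) := by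
    refine opt (by positivity) hB0 (fun t ht => ?_)
    have h2 := H (pull g' ψ) (1 - η) (1 / t) hs (by linarith) (by positivity) hlen
    refine h2.trans ?_
    have hCC : 0 ≤ C * C₁ := by positivity
    have h3 : C * TT g (pull g' ψ) ≤ (η + κ) * (3 * (C * C₁)) := by
      have := mul_le_mul_of_nonneg_left hT hC.le
      linarith
    have h4 : (η + κ) * (3 * (C * C₁)) ≤ 2 * (3 * (C * C₁)) :=
      mul_le_mul_of_nonneg_right (by linarith) (by positivity)
    have h5 : 0 ≤ (η + κ) * (C * C₁) := by positivity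
    have h6 : 0 ≤ κ * A := by positivity
    have e1 : C * TT g (pull g' ψ) + 2 * (1 - (1 - η)) * (C * n * vo g) ≤ (η + κ) * B := by
      rw [← hAd, hBd]
      nlinarith
    have e2 : 2 * C * (TT g (pull g' ψ) + 2 * n * vo g) ≤ 2 * B := by
      have : 2 * C * (TT g (pull g' ψ) + 2 * n * vo g) = 2 * (C * TT g (pull g' ψ)) + 4 * A := by
        rw [hAd]; ring
      rw [this, hBd]
      linarith
    have e3 : 1 / (2 * (1 / t)) = t / 2 := by
      field_simp
    rw [e3]
    have e4 : 1 / t / 2 * (C * TT g (pull g' ψ) + 2 * (1 - (1 - η)) * (C * n * vo g)) ≤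
        1 / t / 2 * ((η + κ) * B) := mul_le_mul_of_nonneg_left e1 (by positivity)
    have e5 : t / 2 * (2 * C * (TT g (pull g' ψ) + 2 * n * vo g)) ≤ t / 2 * (2 * B) :=
      mul_le_mul_of_nonneg_left e2 (by positivity)
    have e6 : 1 / t / 2 * ((η + κ) * B) ≤ (η + κ) * B / t := by
      have h6 : 0 ≤ (η + κ) * B / t := by positivity
      have : 1 / t / 2 * ((η + κ) * B) = (η + κ) * B / t / 2 := by field_simp
      linarith
    have e7 : t / 2 * (2 * B) = t * B := by ring
    linarith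
  rw [div_mul_eq_mul_div, le_div_iff₀ hc, mul_comm]
  calc c * ∫ x in ball (0 : E n) 1, dev g (pull g' ψ) x ≤ (B + B) * √(η + κ) := key
    _ = 2 * B * √(η + κ) := by ring

/-- For almost Kähler `g'` and holomorphic `ψ` the hypotheses of `part_stab` are satisfied. -/
theorem part_of_hol {J' : E n → E n →L[ℝ] E n} {ψ : E n → E n} (hk : AK g J) (hg' : IsMetric g')
    (hJ' : ContDiff ℝ ∞ J') (hk' : AK g' J') (hψ : IsFix ψ)
    (hol : ∀ x ∈ M n, ∀ v, fderiv ℝ ψ x (J x v) = J' (ψ x) (fderiv ℝ ψ x v)) :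
    (∀ x ∈ M n, ∀ v w, pull g' ψ x (J x v) (J x w) = pull g' ψ x v w) ∧
      (∀ x ∈ ball (0 : E n) 1, ∀ u v w, fderiv ℝ (fun y => invF (pull g' ψ) J y (J y v) w) x u +
        fderiv ℝ (fun y => invF (pull g' ψ) J y (J y w) u) x v +
          fderiv ℝ (fun y => invF (pull g' ψ) J y (J y u) v) x w = 0) := by
  have hHK := hk_pull hk hg' hJ' hk' hψ hol
  refine ⟨hHK.herm, fun x hx u v w => ?_⟩
  have hev : ∀ a b : E n, (fun y => invF (pull g' ψ) J y (J y a) b) =ᶠ[𝓝 x]
      fun y => pull g' ψ y (J y a) b := by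
    intro a b
    filter_upwards [isOpen_ball.mem_nhds hx] with y hy
    rw [invF_apply, hHK.herm y (ball_subset_closedBall hy), add_self_div_two]
  rw [(hev v w).fderiv_eq, (hev w u).fderiv_eq, (hev u v).fderiv_eq]
  exact hHK.closed x hx u v w

end Pool.Agent.W2helper20.KS
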