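import Pool.Agent.W2helper20.KS.Stm
import Pool.Agent.W2helper20.BC.EnergySM
import Pool.Agent.W2helper53.BC.Fin
import Pool.Agent.W4helper65.EN.Pull

/-!
# Project KS: assembly
-/

set_option autoImplicit false

namespace Pool.Agent.W2helper20.KS

open Set Metric MeasureTheory Filter Topology
open scoped ContDiff InnerProductSpace ENNReal
open Pool.Agent.Q176.BR Pool.Agent.W2helper20.BC Pool.Agent.W2helper25.KB

variable {n : ℕ} {g h g' : Fld n}

/-- The deviation of `h` from `g`, for the fields of forms. -/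
noncomputable def dev (g h : Fld n) (x : E n) : ℝ :=
  ∑ i, ∑ j, |h x (bs i) (bs j) - g x (bs i) (bs j)|

theorem dev_cont (hg : Continuous g) (hh : Continuous h) : Continuous (dev g h) := by
  unfold dev
  refine continuous_finsetSum _ fun i _ => continuous_finsetSum _ fun j _ => ?_
  exact (((hh.clm_apply continuous_const).clm_apply continuous_const).sub
    ((hg.clm_apply continuous_const).clm_apply continuous_const)).abs

theorem core (hS : P_SCALE) (hA : P_ABS) (hN : P_NORM) (hn : 2 ≤ n) (hg : IsSimple g) :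
    ∃ c C : ℝ, 0 < c ∧ 0 < C ∧ ∀ (h : Fld n) (k lam : ℝ), IsSemi h → 0 ≤ k → 0 < lam → LenGeK k g h →
      c * ∫ x in ball (0 : E n) 1, dev g h x ≤
        lam / 2 * (C * TT g h + 2 * (1 - k) * (C * n * vo g)) +
          1 / (2 * lam) * (2 * C * (TT g h + 2 * n * vo g)) := by
  obtain ⟨C, hC, hT⟩ := Pool.Agent.W2helper53.BC.p_TRACE n (by omega)
  obtain ⟨c, hc, hc2⟩ := hN n g hg.toIsMetric
  refine ⟨c, C, hc, hC, fun h k lam hh hk hl hlen => ?_⟩
  obtain ⟨i1, i2⟩ := hA n C g h k lam (by omega) ⟨hC, hT⟩ hg.toIsMetric hh hk hl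
    (hS n g h k hn hg hh hk hlen)
  refine le_trans ?_ i2
  rw [← integral_const_mul]
  refine setIntegral_mono_on ?_ i1 measurableSet_ball (fun x hx => ?_)
  · exact int_ball (continuous_const.mul (dev_cont hg.smooth.continuous hh.smooth.continuous))
  · have h1 := hc2 x (ball_subset_closedBall hx) (h x - g x) (fun v w => by
      rw [sub_apply, sub_apply, sub_apply, sub_apply, hh.symm x v w, hg.symm x v w])
    simpa only [dev, sub_apply] using h1

theorem vo_pos (g : Fld n) : 0 ≤ vo g :=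
  integral_nonneg fun _ => Real.sqrt_nonneg _

/-- Optimisation of the parameter. -/
theorem opt {X A B s : ℝ} (hs : 0 ≤ s) (hB : 0 ≤ B)
    (h : ∀ t : ℝ, 0 < t → X ≤ s * A / t + t * B) : X ≤ (A + B) * √s := by
  rcases hs.eq_or_lt with rfl | hs0
  · rw [Real.sqrt_zero, mul_zero]
    refine le_of_forall_pos_le_add fun e he => ?_
    have h1 := h (e / (B + 1)) (by positivity)
    rw [zero_mul, zero_div, zero_add] at h1
    refine h1.trans ?_
    rw [zero_add, div_mul_eq_mul_div, div_le_iff₀ (by positivity)]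
    nlinarith
  · have h1 := h (√s) (Real.sqrt_pos.2 hs0)
    refine h1.trans (le_of_eq ?_)
    have h2 : s = √s * √s := (Real.mul_self_sqrt hs).symm
    have h3 : √s ≠ 0 := (Real.sqrt_pos.2 hs0).ne'
    have h4 : s * A / √s = √s * A := by
      rw [div_eq_iff h3]
      nth_rw 1 [h2]
      ring
    rw [h4]
    ring

/-- **Stability of the energy criterion.** -/
theorem energy_stab (hS : P_SCALE) (hA : P_ABS) (hN : P_NORM) (hn : 2 ≤ n) (hg : IsSimple g) :
    ∃ K : ℝ, 0 ≤ K ∧ ∀ (h : Fld n) (ε η : ℝ), IsSemi h → 0 ≤ ε → 0 ≤ η → η ≤ 1 →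
      LenGeK (1 - η) g h → TT g h ≤ n * ε * vo g →
      ∫ x in ball (0 : E n) 1, dev g h x ≤ K * √((ε + η) * (1 + (ε + η))) := by
  obtain ⟨c, C, hc, hC, H⟩ := core hS hA hN hn hg
  have hv := vo_pos g
  set A : ℝ := C * n * vo g with hAd
  have hA0 : 0 ≤ A := by positivity
  refine ⟨3 * A / c, by positivity, fun h ε η hh he h0 h1 hl hT => ?_⟩
  set s : ℝ := ε + η with hsd
  have hs : 0 ≤ s := add_nonneg he h0
  have key : c * ∫ x in ball (0 : E n) 1, dev g h x ≤ (A + 2 * A) * √(s * (1 + s)) := by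
    refine opt (by positivity) (by positivity) (fun t ht => ?_)
    have h2 := H h (1 - η) ((1 + s) / t) hh (by linarith) (by positivity) hl
    refine h2.trans ?_
    have h3 : C * TT g h ≤ ε * A := by
      have := mul_le_mul_of_nonneg_left hT hC.le
      rw [hAd]; linarith
    have e1 : C * TT g h + 2 * (1 - (1 - η)) * (C * n * vo g) ≤ 2 * s * A := by
      rw [← hAd, hsd]
      nlinarith
    have e2 : 2 * C * (TT g h + 2 * n * vo g) ≤ 2 * (2 + s) * A := by
      have : 2 * C * (TT g h + 2 * n * vo g) = 2 * (C * TT g h) + 4 * A := by rw [hAd]; ring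
      rw [this, hsd]
      nlinarith
    have e3 : 1 / (2 * ((1 + s) / t)) = t / (2 * (1 + s)) := by
      field_simp
    rw [e3]
    have e4 : (1 + s) / t / 2 * (C * TT g h + 2 * (1 - (1 - η)) * (C * n * vo g)) ≤
        (1 + s) / t / 2 * (2 * s * A) := mul_le_mul_of_nonneg_left e1 (by positivity)
    have e5 : t / (2 * (1 + s)) * (2 * C * (TT g h + 2 * n * vo g)) ≤
        t / (2 * (1 + s)) * (2 * (2 + s) * A) := mul_le_mul_of_nonneg_left e2 (by positivity)
    have e6 : (1 + s) / t / 2 * (2 * s * A) = s * (1 + s) * A / t := by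
      field_simp
    have e7 : t / (2 * (1 + s)) * (2 * (2 + s) * A) ≤ t * (2 * A) := by
      rw [div_mul_eq_mul_div, div_le_iff₀ (by positivity)]
      have : 0 ≤ t * A := by positivity
      nlinarith
    linarith
  rw [div_mul_eq_mul_div, le_div_iff₀ hc, mul_comm]
  calc c * ∫ x in ball (0 : E n) 1, dev g h x ≤ (A + 2 * A) * √(s * (1 + s)) := key
    _ = 3 * A * √(s * (1 + s)) := by ring

/-- **Stability for almost Kähler metrics.** -/
theorem kaehler_stab (hS : P_SCALE) (hA : P_ABS) (hN : P_NORM) (hD : P_DIV) (hG : P_ALG) (hP : P_PAIR)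
    (hTa : P_TAN) (hI : P_INT) (hB : P_BDK) (hn : 3 ≤ n) (hg : IsSimple g)
    {J : E n → E n →L[ℝ] E n} (hJ : ContDiff ℝ ∞ J) (hk : AK g J) :
    ∃ K : ℝ, 0 ≤ K ∧ ∀ (g' : Fld n) (J' : E n → E n →L[ℝ] E n) (ψ : E n → E n) (η : ℝ),
      IsMetric g' → ContDiff ℝ ∞ J' → AK g' J' → IsFix ψ →
      (∀ x ∈ M n, ∀ v, fderiv ℝ ψ x (J x v) = J' (ψ x) (fderiv ℝ ψ x v)) → 0 ≤ η → η ≤ 1 →
      (∀ p ∈ bdM n, ∀ q ∈ bdM n, (1 - η) * rdist g p q ≤ rdist g' p q) →
      (∀ p ∈ bdM n, ∀ q ∈ bdM n, rdist g' p q ≤ (1 + η) * rdist g p q) →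
      ∫ x in ball (0 : E n) 1, dev g (pull g' ψ) x ≤ K * √η := by
  obtain ⟨c, C, hc, hC, H⟩ := core hS hA hN (by omega) hg
  obtain ⟨C₁, hC1, H1⟩ := hI hD hG hP hTa n g J hn hg.toIsMetric hJ hk
  have hv := vo_pos g
  set A : ℝ := C * n * vo g with hAd
  have hA0 : 0 ≤ A := by positivity
  set B : ℝ := 3 * (C * C₁) + 2 * A with hBd
  have hB0 : 0 ≤ B := by positivity
  refine ⟨2 * B / c, by positivity, fun g' J' ψ η hg' hJ' hk' hψ hol h0 h1 hd1 hd2 => ?_⟩
  have hs := Pool.Agent.W4helper65.EN.semi_pull hg' hψ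
  have hHK := hk_pull hk hg' hJ' hk' hψ hol
  have hlen : LenGeK (1 - η) g (pull g' ψ) := by
    intro γ c1 c2 c3 c4
    have e1 := Pool.Agent.W4helper65.EN.lenGe_pull hg' hψ (fun p _ q _ => le_refl (rdist g' p q))
      γ c1 c2 c3 c4
    exact (hd1 _ c3 _ c4).trans e1
  have hbd : ∀ x ∈ bdM n, ∀ v, ⟪x, v⟫_ℝ = 0 →
      |pull g' ψ x v v - g x v v| ≤ 3 * η * g x v v := by
    intro x hx v hv
    rw [Pool.Agent.W4helper65.EN.pull_apply, fix_tangent hψ hx hv, hψ.fix x hx]
    have hgv : 0 ≤ g x v v := hg.toIsMetric.nonneg x v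
    have hgv' : 0 ≤ g' x v v := hg'.nonneg x v
    have up : g' x v v ≤ (1 + η) ^ 2 * g x v v := by
      have e1 := hB n g' g (1 + η)⁻¹ hg' hg.toIsMetric (by positivity) x hx (fun q hq => by
        rw [inv_mul_le_iff₀ (by linarith)]
        exact hd2 x hx q hq) v hv
      rw [inv_pow, inv_mul_le_iff₀ (by positivity)] at e1
      exact e1
    have lo : (1 - η) ^ 2 * g x v v ≤ g' x v v := by
      rcases h1.eq_or_lt with rfl | h1'
      · simpa using hgv'
      · exact hB n g g' (1 - η) hg.toIsMetric hg' (by linarith) x hx (fun q hq => hd1 x hx q hq) v hv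
    rw [abs_le]
    constructor
    · nlinarith [mul_nonneg h0 hgv, mul_nonneg (mul_nonneg h0 h0) hgv]
    · have : η ^ 2 * g x v v ≤ η * g x v v := by
        refine mul_le_mul_of_nonneg_right ?_ hgv
        nlinarith
      nlinarith [mul_nonneg h0 hgv]
  have hT := (abs_le.1 (H1 _ (3 * η) hHK (by positivity) hbd)).2
  have key : c * ∫ x in ball (0 : E n) 1, dev g (pull g' ψ) x ≤ (B + B) * √η := by
    refine opt h0 hB0 (fun t ht => ?_)
    have h2 := H (pull g' ψ) (1 - η) (1 / t) hs (by linarith) (by positivity) hlen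
    refine h2.trans ?_
    have h3 : C * TT g (pull g' ψ) ≤ η * (3 * (C * C₁)) := by
      have := mul_le_mul_of_nonneg_left hT hC.le
      linarith
    have h4 : η * (3 * (C * C₁)) ≤ 3 * (C * C₁) := mul_le_of_le_one_left (by positivity) h1
    have e1 : C * TT g (pull g' ψ) + 2 * (1 - (1 - η)) * (C * n * vo g) ≤ η * B := by
      rw [← hAd, hBd]
      linarith
    have e2 : 2 * C * (TT g (pull g' ψ) + 2 * n * vo g) ≤ 2 * B := by
      have : 2 * C * (TT g (pull g' ψ) + 2 * n * vo g) = 2 * (C * TT g (pull g' ψ)) + 4 * A := by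
        rw [hAd]; ring
      rw [this, hBd]
      linarith
    have e3 : 1 / (2 * (1 / t)) = t / 2 := by
      field_simp
    rw [e3]
    have e4 : 1 / t / 2 * (C * TT g (pull g' ψ) + 2 * (1 - (1 - η)) * (C * n * vo g)) ≤
        1 / t / 2 * (η * B) := mul_le_mul_of_nonneg_left e1 (by positivity)
    have e5 : t / 2 * (2 * C * (TT g (pull g' ψ) + 2 * n * vo g)) ≤ t / 2 * (2 * B) :=
      mul_le_mul_of_nonneg_left e2 (by positivity)
    have e6 : 1 / t / 2 * (η * B) ≤ η * B / t := by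
      have h6 : 0 ≤ η * B / t := by positivity
      have : 1 / t / 2 * (η * B) = η * B / t / 2 := by field_simp
      linarith
    have e7 : t / 2 * (2 * B) = t * B := by ring
    linarith
  rw [div_mul_eq_mul_div, le_div_iff₀ hc, mul_comm]
  calc c * ∫ x in ball (0 : E n) 1, dev g (pull g' ψ) x ≤ (B + B) * √η := key
    _ = 2 * B * √η := by ring

theorem TT_eq (hn : 1 ≤ n) (hg : IsMetric g) (hh : IsSemi h) : TT g h = n * (enp 2 g h - vo g) := by
  have hc := (Pool.Agent.W4helper65.EN.p_PULL.2 n g h hg hh).1.continuous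
  have hr := (rho_cont hg).sqrt
  have hn0 : (n : ℝ) ≠ 0 := by
    have : 0 < n := hn
    positivity
  unfold enp vo TT
  rw [← integral_sub (int_ball ?_) (int_ball hr), ← integral_const_mul]
  · refine setIntegral_congr_fun measurableSet_ball fun x _ => ?_
    have e1 : (2 : ℝ) / 2 = 1 := by norm_num
    simp only [e1, Real.rpow_one, Tr]
    field_simp
  · have e1 : (2 : ℝ) / 2 = 1 := by norm_num
    simp only [e1, Real.rpow_one]
    exact hc.mul hr

end Pool.Agent.W2helper20.KS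

namespace Pool.Agent.W2helper20.KS

open Set Metric MeasureTheory
open scoped ContDiff InnerProductSpace
open Pool.Agent.Q176 Pool.Agent.Q176.BR Pool.Agent.W2helper20.BC Pool.Agent.W2helper20.EN

variable {n : ℕ} {g g' : E n → E n → E n → ℝ}

theorem dev_bridge (hg : SM.IsMetric g) (hg' : SM.IsMetric g') (ψ : E n → E n) (x : E n) :
    dev (clm g) (pull (clm g') ψ) x = ∑ i, ∑ j, |pullback ψ g' x (EuclideanSpace.single i 1)
      (EuclideanSpace.single j 1) - g x (EuclideanSpace.single i 1) (EuclideanSpace.single j 1)| := by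
  unfold dev
  refine Finset.sum_congr rfl fun i _ => Finset.sum_congr rfl fun j _ => ?_
  rw [pull_apply, clm_apply hg, clm_apply hg']
  rfl

/-- Stability of the energy criterion, for the definitions of `SM`. -/
theorem energy_SM (hS : P_SCALE) (hA : P_ABS) (hN : P_NORM) (hn : 2 ≤ n) (hg : SM.IsSimple g) :
    ∃ C : ℝ, ∀ (g' : E n → E n → E n → ℝ) (ψ : E n → E n) (ε η : ℝ), SM.IsMetric g' →
      FixesBoundary ψ → 0 ≤ ε → 0 ≤ η → η ≤ 1 →
      (∀ x ∈ bdM n, ∀ y ∈ bdM n, (1 - η) * SM.rdist g x y ≤ SM.rdist g' x y) →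
      energy 2 g g' ψ ≤ (1 + ε) * vol g →
      ∫ x in M n, ∑ i, ∑ j, |pullback ψ g' x (EuclideanSpace.single i 1)
        (EuclideanSpace.single j 1) - g x (EuclideanSpace.single i 1)
          (EuclideanSpace.single j 1)| ≤ C * √((ε + η) * (1 + (ε + η))) := by
  have hm := hg.toIsMetric
  obtain ⟨K, -, H⟩ := energy_stab hS hA hN hn (clm_simple hg)
  refine ⟨K, fun g' ψ ε η hg' hψ he h0 h1 hd hE => ?_⟩
  have hψ' : IsFix ψ := ⟨hψ.smooth, hψ.maps, hψ.fix⟩
  have hs := Pool.Agent.W4helper65.EN.semi_pull (clm_metric hg') hψ'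
  have h2 := H (pull (clm g') ψ) ε η hs he h0 h1 (by
    intro γ c1 c2 c3 c4
    have e1 := Pool.Agent.W4helper65.EN.lenGe_pull (clm_metric hg') hψ'
      (fun p _ q _ => le_refl (rdist (clm g') p q)) γ c1 c2 c3 c4
    rw [clm_rdist hm]
    rw [clm_rdist hg'] at e1
    exact (hd _ c3 _ c4).trans e1) (by
    rw [TT_eq (by omega) (clm_metric hm) hs, enp_clm hm hg', vo_clm hm]
    have : (n : ℝ) * (energy 2 g g' ψ - vol g) ≤ n * (ε * vol g) :=
      mul_le_mul_of_nonneg_left (by linarith) (Nat.cast_nonneg n)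
    linarith)
  simp only [dev_bridge hm hg'] at h2
  rw [int_M]
  exact h2

end Pool.Agent.W2helper20.KS
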