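import Pool.Agent.W2helper25.KB.Psi

/-!
# Project KS: stability for boundary rigidity (MP_07cd05_gt)

Exact statements of the pieces, with proofs. `g` is a simple metric on the closed unit ball `M`, `h = ψ^* g'`.

Plan. (1) `(1 - η) d_g ≤ d_{g'}` on the boundary gives (averaging over the geodesics, library P_AVG2)
`(1 - η) ∫∫ g ρ ≤ ∫∫ √g √h ρ` over `{g(v, v) ≤ 1}` (SCALE). (2) Hence `∫∫ (√h - √g)² ρ` is at most
`C ∫ √ρ (tr_g h - n) + 2 η C n vol`, and `|h - g| = |√h - √g| (√h + √g)` (ABS). (3) `∫_{g(v,v) ≤ 1} |b(v, v)| dv` is a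
norm on the symmetric forms (NORM). (4) For Kähler metrics `∫ √ρ (tr_g h - n)` is a boundary integral (DIV, ALG, PAIR)
of the difference of the fundamental forms restricted to the sphere, which is `O(η)` (BDK, TAN, INT).
-/

set_option autoImplicit false

namespace Pool.Agent.W2helper20.KS

open Set Metric MeasureTheory Filter Topology
open scoped ContDiff InnerProductSpace ENNReal
open Pool.Agent.Q176.BR Pool.Agent.W2helper20.BC Pool.Agent.W2helper25.KB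

/-- `∫_ball √ρ (tr_g h - n)`. -/
noncomputable def TT {n : ℕ} (g h : Fld n) : ℝ := ∫ x in ball (0 : E n) 1,
  √(rho g x) * (((gram (g x))⁻¹ * gram (h x)).trace - n)

/-- The constant of `P_TRACE`. -/
def TraceC (n : ℕ) (C : ℝ) : Prop := 0 < C ∧ ∀ a b : E n →L[ℝ] E n →L[ℝ] ℝ,
  (∀ v w, a v w = a w v) → (∀ v, v ≠ 0 → 0 < a v v) → (∀ v w, b v w = b w v) →
    volume {v : E n | a v v ≤ 1} < ⊤ ∧ IntegrableOn (fun v => b v v) {v : E n | a v v ≤ 1} ∧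
    ∫ v in {v : E n | a v v ≤ 1}, b v v = C / √(gram a).det * ((gram a)⁻¹ * gram b).trace

/-- `k d_g ≤` the `h`-length, for the curves in `M` between boundary points. -/
def LenGeK {n : ℕ} (k : ℝ) (g h : Fld n) : Prop := ∀ c : ℝ → E n, ContDiffOn ℝ 1 c (Icc 0 1) →
  (∀ t ∈ Icc (0 : ℝ) 1, c t ∈ M n) → c 0 ∈ bdM n → c 1 ∈ bdM n → k * rdist g (c 0) (c 1) ≤ len h c

/-- SCALE. `k = 0` trivial. `k > 0`: apply `P_AVG2` (theorem
`p_AVG2 (Pool.Agent.W2helper98.BC.p_inv p_sym) Pool.Agent.W2helper6.BC.p_meas p_chord1 p_chord2`, as in `KB/Psi.lean`)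
to the field `h' = (k ^ 2)⁻¹ • h`: `IsSemi h'`, `√(h' x v v) = k⁻¹ * √(h x v v)`, so `len h' c = k⁻¹ * len h c` and
`LenGe g h'`; `A1 g h' = ofReal k⁻¹ * A1 g h` (`lintegral_const_mul'`), so `A2 g ≤ ofReal k⁻¹ * A1 g h`. -/
def P_SCALE : Prop := ∀ (n : ℕ) (g h : Fld n) (k : ℝ), 2 ≤ n → IsSimple g → IsSemi h → 0 ≤ k → LenGeK k g h →
  ENNReal.ofReal k * A2 g ≤ A1 g h

/-- ABS. Let `K = {(x, v) | x ∈ closedBall 0 1, g x v v ≤ 1}`, compact (`g x v v ≥ m ‖v‖ ^ 2` for `x ∈ M`, `m > 0`, by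
compactness of `M × sphere`), so every continuous function of `(x, v)` is integrable on `K` (or on
`{(x, v) | x ∈ ball 0 1, g x v v ≤ 1}`), and `∫_K F = ∫_ball ∫_{g x v v ≤ 1} F(x, v) dv dx` (`integral_prod` for the
indicator, or `setIntegral_prod`-like; the sphere is a null set), also for lintegrals of nonnegative functions. Write
`I F = ∫_ball ρ(x) ∫_{g x v v ≤ 1} F(x, v) dv dx`. By `TraceC`: `I h = C ∫ √ρ tr_g h = C (TT g h + n vo g)`,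
`I g = C n vo g` (`ρ / √ρ = √ρ`; `√(gram g).det = √ρ`). `A2 g = ofReal (I g)`, `A1 g h = ofReal (I (√g √h))`, so the
hypothesis gives `k I g ≤ I (√g √h)`. So `I (√h - √g)² = I h + I g - 2 I (√g √h) ≤ C TT g h + 2 (1 - k) C n vo g`, and
`I (√h + √g)² ≤ 2 I h + 2 I g = 2 C (TT g h + 2 n vo g)`. Pointwise
`|h - g| = |√h - √g| (√h + √g) ≤ lam / 2 (√h - √g)² + 1 / (2 lam) (√h + √g)²`. -/
def P_ABS : Prop := ∀ (n : ℕ) (C : ℝ) (g h : Fld n) (k lam : ℝ), 1 ≤ n → TraceC n C → IsMetric g → IsSemi h →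
  0 ≤ k → 0 < lam → ENNReal.ofReal k * A2 g ≤ A1 g h →
  IntegrableOn (fun x => rho g x * ∫ v in {v : E n | g x v v ≤ 1}, |h x v v - g x v v|) (ball (0 : E n) 1) ∧
  ∫ x in ball (0 : E n) 1, rho g x * ∫ v in {v : E n | g x v v ≤ 1}, |h x v v - g x v v| ≤
    lam / 2 * (C * TT g h + 2 * (1 - k) * (C * n * vo g)) + 1 / (2 * lam) * (2 * C * (TT g h + 2 * n * vo g))

/-- NORM. By compactness of `M`: `rho g ≥ r > 0` on `M`, `g x v v ≤ G ‖v‖ ^ 2` for `x ∈ M`, so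
`closedBall 0 s ⊆ {v | g x v v ≤ 1}` for `s = 1 / √(G + 1)`; the set `{g x v v ≤ 1}` is bounded (`g x v v ≥ m ‖v‖ ^ 2`), so
`|b v v|` is integrable on it and its integral is at least `F b = ∫_{closedBall 0 s} |b v v|`. `F` is continuous (Lipschitz:
`|F b - F b'| ≤ ‖b - b'‖ s ^ 2 vol`), homogeneous, and positive for symmetric `b ≠ 0` (`F b = 0` gives `b v v = 0` almost
everywhere on the ball, hence everywhere by continuity and homogeneity, hence `b = 0` by polarisation). The set of the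
symmetric `b` with `∑ i, ∑ j, |b (bs i) (bs j)| = 1` is closed and bounded in the finite dimensional space
`E n →L[ℝ] E n →L[ℝ] ℝ` (bounded: `‖b‖ ≤ ∑ i, ∑ j, |b (bs i) (bs j)|`), so compact, and `F ≥ c₁ > 0` there. -/
def P_NORM : Prop := ∀ (n : ℕ) (g : Fld n), IsMetric g → ∃ c : ℝ, 0 < c ∧ ∀ x ∈ M n,
  ∀ b : E n →L[ℝ] E n →L[ℝ] ℝ, (∀ v w, b v w = b w v) →
    c * ∑ i, ∑ j, |b (bs i) (bs j)| ≤ rho g x * ∫ v in {v : E n | g x v v ≤ 1}, |b v v|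

/-- DIV: divergence theorem with a boundary term (inequality only). Proof. Let `q x = ∑ k, x k * Z k x`, `C¹`. The field
`Z' k x = Z k x - q x * x k` is tangent to the sphere, so `∫_ball div Z' = 0` (`KB.ball_div`), i.e.
`∫_ball div Z = ∫_ball (n q(x) + dq_x(x)) dx`. Let `Q t = ∫_{ball 1} t ^ n * q (t • x) dx` (`= ∫_{ball t} q` for `t > 0`).
Its derivative at `t = 1` is `∫_ball (n q(x) + dq_x(x)) dx` (`hasDerivAt_integral_of_dominated_loc_of_deriv_le`). For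
`0 < t < 1`: `|Q 1 - Q t| = |∫_{ball 1 \ ball t} q| ≤ (δ + ε) vol(ball 1) (1 - t ^ n)` if `|q| ≤ δ + ε` on
`ball 1 \ ball t`, which holds for `t` near `1` (uniform continuity of `q` on the closed ball), and
`1 - t ^ n ≤ n (1 - t)` (Bernoulli). So `|Q' 1| ≤ (δ + ε) n vol(ball 1)` for all `ε > 0`. `c = n vol(ball 1)`.
(Alternative: repeat the proof of `KB.ball_div` with the cut off functions.) -/
def P_DIV : Prop := ∀ n : ℕ, 1 ≤ n → ∃ c : ℝ, 0 ≤ c ∧ ∀ (Z : Fin n → E n → ℝ) (δ : ℝ), (∀ k, ContDiff ℝ 1 (Z k)) →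
  (∀ x : E n, ‖x‖ = 1 → |∑ k, x k * Z k x| ≤ δ) →
  |∫ x in ball (0 : E n) 1, ∑ k, fderiv ℝ (Z k) x (bs k)| ≤ c * δ

/-- ALG. Let `b j = ∑ a, x a * B a j`; `∑ j, x j * b j = 0` by antisymmetry. `B'' i j = x i * b j - x j * b i` is
antisymmetric and satisfies `∑ a, x a * B'' a j = b j`, so `KB.alg_bd` applies to `B''` (the left side with `B''` is `0`).
`T = B - B''` satisfies `∑ i, x i * T i j = 0`, so the left side with `T` is `∑ k, x k * x k * ∑ i, ∑ j, P i j * T i j`. -/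
def P_ALG : Prop := ∀ (n : ℕ) (x : Fin n → ℝ) (P B : Fin n → Fin n → ℝ), (∀ i j, P i j = -P j i) →
  (∀ i j, B i j = -B j i) → ∑ k, x k * x k = 1 →
  ∑ k, x k * (∑ i, ∑ j, (x k * P i j + x i * P j k + x j * P k i) * B i j) =
    ∑ i, ∑ j, P i j * (B i j - (x i * (∑ a, x a * B a j) - x j * (∑ a, x a * B a i)))

/-- PAIR. The proof of `KB.pairing` (file `Pool/Agent/W2helper25/KB/Pair.lean`) with `P_DIV` instead of `ball_div` and
`P_ALG` instead of `alg_bd`: on the sphere `|∑ k, x k * ZT P B t k x| ≤ t ^ (n - 3) * ∑ i, ∑ j, p * δ ≤ n ^ 2 * p * δ`, so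
`|∫_ball HT P B t| ≤ c n ^ 2 p δ` for `t ∈ [0, 1]`; integrate over `t`
(`norm_setIntegral_le_of_norm_le_const` or `intervalIntegral.norm_integral_le_of_norm_le_const`). -/
def P_PAIR : Prop := P_DIV → P_ALG → ∀ n : ℕ, 3 ≤ n → ∃ c : ℝ, 0 ≤ c ∧
  ∀ (P B : Fin n → Fin n → E n → ℝ) (p δ : ℝ), (∀ i j, ContDiff ℝ 1 (P i j)) → (∀ i j, ContDiff ℝ 1 (B i j)) →
  (∀ x ∈ closedBall (0 : E n) 1, ∀ i j, P i j x = -P j i x) →
  (∀ x ∈ closedBall (0 : E n) 1, ∀ i j, B i j x = -B j i x) →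
  (∀ x ∈ ball (0 : E n) 1, ∀ j, ∑ i, fderiv ℝ (P i j) x (bs i) = 0) →
  (∀ x ∈ ball (0 : E n) 1, ∀ i j k, fderiv ℝ (B i j) x (bs k) +
    fderiv ℝ (B j k) x (bs i) + fderiv ℝ (B k i) x (bs j) = 0) →
  (∀ x ∈ closedBall (0 : E n) 1, ∀ i j, |P i j x| ≤ p) →
  (∀ x : E n, ‖x‖ = 1 → ∀ i j, |B i j x -
    (x i * (∑ a, x a * B a j x) - x j * (∑ a, x a * B a i x))| ≤ δ) →
  |∫ x in ball (0 : E n) 1, ∑ i, ∑ j, P i j x * B i j x| ≤ c * p * δ

/-- BDK. `rdist (k ^ 2 • g) x y = k * rdist g x y` (the set of lengths is multiplied by `k`: `Real.sInf_smul_of_nonneg`,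
`len (k ^ 2 • g) c = k * len g c`), `k ^ 2 • g` (that is `fun x => k ^ 2 • g x`) is a metric, and `KB.bd_le`
(`Pool/Agent/W2helper25/KB/Len.lean`). -/
def P_BDK : Prop := ∀ (n : ℕ) (g g' : Fld n) (k : ℝ), IsMetric g → IsMetric g' → 0 < k → ∀ p ∈ bdM n,
  (∀ q ∈ bdM n, k * rdist g p q ≤ rdist g' p q) → ∀ v : E n, ⟪p, v⟫_ℝ = 0 → k ^ 2 * g p v v ≤ g' p v v

/-- TAN. Let `β v w = h x (J x v) w - g x (J x v) w`, antisymmetric (`HK.anti`), `v i = bs i - x i • x`, tangent, of norm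
at most one. The expression is `β (v i) (v j)` (as in `KB.Bf_bd2`). Let `ℓ v = ⟪x, J x v⟫`. For tangent `a, b`,
`(h - g)(a, b) = ((h - g)(a + b, a + b) - (h - g)(a - b, a - b)) / 4`, so `|(h - g)(a, b)| ≤ δ G (‖a‖² + ‖b‖²) / 2`. For
tangent `v, w` of norm at most one let `|ℓ v| ≤ |ℓ w|` (otherwise exchange them, `β` is antisymmetric) and `c = ℓ v / ℓ w`
(`c = 0` if `ℓ w = 0`), `|c| ≤ 1`, `u = v - c • w`: then `ℓ u = 0`, so `J x u` is tangent, `‖J x u‖ ≤ 2 N`, and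
`β v w = β u w = (h - g)(J x u, w)`, at most `δ G (4 N ^ 2 + 1) / 2` in absolute value. -/
def P_TAN : Prop := ∀ (n : ℕ) (g h : Fld n) (J : E n → E n →L[ℝ] E n) (x : E n) (G N δ : ℝ), HK g J → HK h J →
  ‖x‖ = 1 → 0 ≤ G → 0 ≤ N → 0 ≤ δ → (∀ v, g x v v ≤ G * ‖v‖ ^ 2) → (∀ v, ‖J x v‖ ≤ N * ‖v‖) →
  (∀ v, ⟪x, v⟫_ℝ = 0 → |h x v v - g x v v| ≤ δ * g x v v) → ∀ i j : Fin n,
  |Bf g h J i j x - (x i * (∑ a, x a * Bf g h J a j x) - x j * (∑ a, x a * Bf g h J a i x))| ≤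
    δ * G * (2 * N ^ 2 + 1)

/-- INT. The proof of `KB.ak_int2` (file `Pool/Agent/W2helper25/KB/Kae2.lean`) with `P_PAIR` instead of `pairing` and
`P_TAN` instead of `Bf_bd2`; `p`, `G`, `N` by compactness of `M` (`Pf g J i j` is continuous; `G = sup ‖g x‖`,
`N = sup ‖J x‖` on `M`, `‖g x v v‖ ≤ ‖g x‖ ‖v‖ ^ 2`). `C₁ = c * p * (G * (2 * N ^ 2 + 1))`. -/
def P_INT : Prop := P_DIV → P_ALG → P_PAIR → P_TAN → ∀ (n : ℕ) (g : Fld n) (J : E n → E n →L[ℝ] E n), 3 ≤ n →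
  IsMetric g → ContDiff ℝ ∞ J → AK g J → ∃ C₁ : ℝ, 0 ≤ C₁ ∧ ∀ (h : Fld n) (δ : ℝ), HK h J → 0 ≤ δ →
  (∀ x ∈ bdM n, ∀ v, ⟪x, v⟫_ℝ = 0 → |h x v v - g x v v| ≤ δ * g x v v) → |TT g h| ≤ C₁ * δ

end Pool.Agent.W2helper20.KS
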