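import Pool.Agent.W2helper20.KS.Inv

/-!
# Forms which are Hermitian, with an arbitrary fundamental form: the boundary estimate

The proofs are those of piece TAN (`Pool/Agent/W2helper51/KS/TAN.lean`); closedness of the fundamental form is not used.
-/

set_option autoImplicit false

namespace Pool.Agent.W2helper20.KS

open Set Metric MeasureTheory Filter Topology
open scoped ContDiff InnerProductSpace ENNReal
open Pool.Agent.Q176.BR Pool.Agent.W2helper20.BC Pool.Agent.W2helper25.KB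

variable {n : ℕ} {g h : Fld n} {J : E n → E n →L[ℝ] E n} {x : E n} {G N δ : ℝ}

/-- `h` is a smooth field of symmetric forms, Hermitian with respect to `J` on `M`. -/
structure HK0 (h : Fld n) (J : E n → E n →L[ℝ] E n) : Prop where
  smooth : ContDiff ℝ ∞ h
  symm : ∀ x v w, h x v w = h x w v
  sq : ∀ x ∈ M n, ∀ v, J x (J x v) = -v
  herm : ∀ x ∈ M n, ∀ v w, h x (J x v) (J x w) = h x v w

theorem HK0.smM (hh : HK0 h J) (hJ : ContDiff ℝ ∞ J) : SmM (Wm h J) :=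
  (smM_Jm hJ).transpose.mul (fun _ _ =>
    (hh.smooth.clm_apply contDiff_const).clm_apply contDiff_const)

theorem HK0.anti (hh : HK0 h J) {x : E n} (hx : x ∈ M n) (a b : E n) :
    h x (J x a) b = -h x (J x b) a := by
  rw [← hh.herm x hx, hh.sq x hx, hh.symm x (J x b)]
  simp

theorem HK0.Wm_anti (hh : HK0 h J) {x : E n} (hx : x ∈ M n) (i j : Fin n) :
    Wm h J x i j = -Wm h J x j i := by
  rw [Wm_apply, Wm_apply]
  exact hh.anti hx _ _

theorem AK_hk0 (hg : IsMetric g) (hk : AK g J) : HK0 g J :=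
  ⟨hg.smooth, hg.symm, hk.sq, hk.herm⟩

theorem invF_hk0 (hJ : ContDiff ℝ ∞ J) (hk : AK g J) (hs : IsSemi h) : HK0 (invF h J) J := by
  refine ⟨?_, ?_, hk.sq, ?_⟩
  · rw [contDiff_clm_apply_iff]
    intro v
    rw [contDiff_clm_apply_iff]
    intro w
    simp only [invF_apply]
    have h1 : ContDiff ℝ ∞ (fun x => h x v w) :=
      (hs.smooth.clm_apply contDiff_const).clm_apply contDiff_const
    have h2 : ContDiff ℝ ∞ (fun x => h x (J x v) (J x w)) :=
      (hs.smooth.clm_apply (hJ.clm_apply contDiff_const)).clm_apply (hJ.clm_apply contDiff_const)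
    exact (h1.add h2).div_const 2
  · intro x v w
    rw [invF_apply, invF_apply, hs.symm x v w, hs.symm x (J x v)]
  · intro x hx v w
    rw [invF_apply, invF_apply, hk.sq x hx, hk.sq x hx]
    simp only [map_neg, neg_apply, neg_neg]
    ring

theorem tan_pol (hk : HK0 g J) (hk' : HK0 h J) (hδ : 0 ≤ δ)
    (hgG : ∀ v, g x v v ≤ G * ‖v‖ ^ 2)
    (hb : ∀ v, ⟪x, v⟫_ℝ = 0 → |h x v v - g x v v| ≤ δ * g x v v) {a b : E n}
    (ha : ⟪x, a⟫_ℝ = 0) (hb' : ⟪x, b⟫_ℝ = 0) :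
    |h x a b - g x a b| ≤ δ * G * ((‖a‖ ^ 2 + ‖b‖ ^ 2) / 2) := by
  have hq : ∀ w, ⟪x, w⟫_ℝ = 0 → |h x w w - g x w w| ≤ δ * G * ‖w‖ ^ 2 := by
    intro w hw
    refine (hb w hw).trans ?_
    rw [mul_assoc]
    exact mul_le_mul_of_nonneg_left (hgG w) hδ
  have h1 := hq (a + b) (by rw [inner_add_right, ha, hb', add_zero])
  have h2 := hq (a - b) (by rw [inner_sub_right, ha, hb', sub_zero])
  have h3 : h x a b - g x a b = ((h x (a + b) (a + b) - g x (a + b) (a + b)) -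
      (h x (a - b) (a - b) - g x (a - b) (a - b))) / 4 := by
    simp only [map_add, map_sub, add_apply, sub_apply]
    rw [hk.symm x b a, hk'.symm x b a]
    ring
  have h4 : ‖a + b‖ ^ 2 + ‖a - b‖ ^ 2 = 2 * (‖a‖ ^ 2 + ‖b‖ ^ 2) := by
    have := parallelogram_law_with_norm ℝ a b
    nlinarith [this]
  have h5 := abs_sub (h x (a + b) (a + b) - g x (a + b) (a + b))
    (h x (a - b) (a - b) - g x (a - b) (a - b))
  rw [h3, abs_div, abs_of_pos (show (0 : ℝ) < 4 by norm_num), div_le_iff₀ (by norm_num)]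
  have h6 : δ * G * ((‖a‖ ^ 2 + ‖b‖ ^ 2) / 2) * 4 = δ * G * ‖a + b‖ ^ 2 + δ * G * ‖a - b‖ ^ 2 := by
    rw [← mul_add, h4]
    ring
  rw [h6]
  linarith

theorem tan_aux (hk : HK0 g J) (hk' : HK0 h J) (hx : x ∈ M n) (hG : 0 ≤ G) (hN : 0 ≤ N)
    (hδ : 0 ≤ δ) (hgG : ∀ v, g x v v ≤ G * ‖v‖ ^ 2) (hJN : ∀ v, ‖J x v‖ ≤ N * ‖v‖)
    (hb : ∀ v, ⟪x, v⟫_ℝ = 0 → |h x v v - g x v v| ≤ δ * g x v v) {v w : E n}
    (hw : ⟪x, w⟫_ℝ = 0) (hv1 : ‖v‖ ≤ 1) (hw1 : ‖w‖ ≤ 1)
    (hle : |⟪x, J x v⟫_ℝ| ≤ |⟪x, J x w⟫_ℝ|) :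
    |h x (J x v) w - g x (J x v) w| ≤ δ * G * (2 * N ^ 2 + 1) := by
  set c : ℝ := ⟪x, J x v⟫_ℝ / ⟪x, J x w⟫_ℝ with hc
  have hc1 : |c| ≤ 1 := by
    rw [hc, abs_div]
    exact div_le_one_of_le₀ hle (abs_nonneg _)
  have h1 : ⟪x, J x (v - c • w)⟫_ℝ = 0 := by
    rw [map_sub, map_smul, inner_sub_right, inner_smul_right, hc]
    by_cases ha : ⟪x, J x w⟫_ℝ = 0
    · have hv0 : ⟪x, J x v⟫_ℝ = 0 := by
        rw [ha, abs_zero] at hle
        exact abs_eq_zero.mp (le_antisymm hle (abs_nonneg _))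
      rw [ha, hv0]
      simp
    · rw [div_mul_cancel₀ _ ha, sub_self]
  have h2 := tan_pol hk hk' hδ hgG hb h1 hw
  have h3 : g x (J x w) w = 0 := by
    have := hk.anti hx w w
    linarith
  have h4 : h x (J x w) w = 0 := by
    have := hk'.anti hx w w
    linarith
  have h5 : h x (J x (v - c • w)) w - g x (J x (v - c • w)) w =
      h x (J x v) w - g x (J x v) w := by
    simp only [map_sub, map_smul, sub_apply, smul_apply, smul_eq_mul]
    rw [h3, h4]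
    ring
  rw [h5] at h2
  refine h2.trans (mul_le_mul_of_nonneg_left ?_ (mul_nonneg hδ hG))
  have h6 : ‖v - c • w‖ ≤ 2 := by
    refine (norm_sub_le _ _).trans ?_
    rw [norm_smul, Real.norm_eq_abs]
    have : |c| * ‖w‖ ≤ 1 := mul_le_one₀ hc1 (norm_nonneg _) hw1
    linarith
  have h7 : ‖J x (v - c • w)‖ ≤ N * 2 := (hJN _).trans (mul_le_mul_of_nonneg_left h6 hN)
  have h8 : ‖J x (v - c • w)‖ ^ 2 ≤ (N * 2) ^ 2 := pow_le_pow_left₀ (norm_nonneg _) h7 2
  have h9 : ‖w‖ ^ 2 ≤ 1 := pow_le_one₀ (norm_nonneg _) hw1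
  nlinarith

theorem tan0 (hk : HK0 g J) (hk' : HK0 h J) (hx : ‖x‖ = 1) (hG : 0 ≤ G) (hN : 0 ≤ N) (hδ : 0 ≤ δ)
    (hgG : ∀ v, g x v v ≤ G * ‖v‖ ^ 2) (hJN : ∀ v, ‖J x v‖ ≤ N * ‖v‖)
    (hb : ∀ v, ⟪x, v⟫_ℝ = 0 → |h x v v - g x v v| ≤ δ * g x v v) (i j : Fin n) :
    |Bf g h J i j x - (x i * (∑ a, x a * Bf g h J a j x) - x j * (∑ a, x a * Bf g h J a i x))| ≤
      δ * G * (2 * N ^ 2 + 1) := by
  have hxb : x ∈ bdM n := by rwa [mem_sphere_zero_iff_norm]
  have hxM : x ∈ M n := sphere_subset_closedBall hxb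
  set β : E n → E n → ℝ := fun v w => h x (J x v) w - g x (J x v) w with hβ
  have hB : ∀ a b, Bf g h J a b x = β (bs a) (bs b) := by
    intro a b
    simp only [Bf, Wm_apply, hβ]
  have hxx : ⟪x, x⟫_ℝ = 1 := by rw [real_inner_self_eq_norm_sq, hx]; norm_num
  have hsum : ∀ b : Fin n, ∑ a, x a * Bf g h J a b x = β x (bs b) := by
    intro b
    have h1 : β x (bs b) = β (∑ a, x a • bs a) (bs b) := by rw [sum_bs]
    rw [h1]
    simp only [hβ, map_sum, map_smul, sum_apply, smul_apply, smul_eq_mul, hB]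
    rw [← Finset.sum_sub_distrib]
    exact Finset.sum_congr rfl fun a _ => by ring
  have ht : ∀ i : Fin n, ⟪x, bs i - x i • x⟫_ℝ = 0 := by
    intro i
    rw [inner_sub_right, inner_smul_right, hxx, bs_inner]
    ring
  have hnorm : ∀ i : Fin n, ‖(bs i - x i • x : E n)‖ ≤ 1 := by
    intro i
    have h1 : ‖(bs i - x i • x : E n)‖ ^ 2 = ‖(bs i : E n)‖ ^ 2 - x i ^ 2 := by
      rw [@norm_sub_sq_real, norm_smul, hx, inner_smul_right, real_inner_comm, bs_inner,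
        Real.norm_eq_abs, mul_one, sq_abs]
      ring
    have h2 : ‖(bs i : E n)‖ = 1 := by simp [bs]
    rw [h2] at h1
    have h3 : ‖(bs i - x i • x : E n)‖ ^ 2 ≤ 1 := by
      rw [h1]
      nlinarith [sq_nonneg (x i)]
    exact (sq_le_one_iff₀ (norm_nonneg _)).mp h3
  have h3 : g x (J x x) x = 0 := by
    have := hk.anti hxM x x
    linarith
  have h4 : h x (J x x) x = 0 := by
    have := hk'.anti hxM x x
    linarith
  have h5 := hk.anti hxM (bs i) x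
  have h6 := hk'.anti hxM (bs i) x
  have hE : Bf g h J i j x - (x i * (∑ a, x a * Bf g h J a j x) -
      x j * (∑ a, x a * Bf g h J a i x)) = β (bs i - x i • x) (bs j - x j • x) := by
    rw [hsum i, hsum j, hB]
    simp only [hβ, map_sub, map_smul, sub_apply, smul_apply, smul_eq_mul]
    rw [h3, h4, h5, h6]
    ring
  rw [hE]
  rcases le_total |⟪x, J x (bs i - x i • x)⟫_ℝ| |⟪x, J x (bs j - x j • x)⟫_ℝ| with hle | hle
  · exact tan_aux hk hk' hxM hG hN hδ hgG hJN hb (ht j) (hnorm i) (hnorm j) hle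
  · have h7 := tan_aux hk hk' hxM hG hN hδ hgG hJN hb (ht i) (hnorm j) (hnorm i) hle
    have h8 : β (bs i - x i • x) (bs j - x j • x) = -(h x (J x (bs j - x j • x)) (bs i - x i • x) -
        g x (J x (bs j - x j • x)) (bs i - x i • x)) := by
      simp only [hβ]
      rw [hk.anti hxM (bs i - x i • x), hk'.anti hxM (bs i - x i • x)]
      ring
    rw [h8, abs_neg]
    exact h7

end Pool.Agent.W2helper20.KS
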